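import Pool.Agent.Helper42.GP.Exact
import Pool.Agent.Helper42.GC.Gram

/-!
# Cheap sets: words, unions, direct sums
-/

set_option autoImplicit false

open Finset

namespace Pool.Agent.Helper42.GP

open Pool.Agent.Helper42.GC (rf Gen Valid ones mem_ones lt_of_mem_ones)

lemma Built.le {s : ℕ} {S : Finset ℕ} (h : Built s S) : cost S ≤ s := Nat.sInf_le h

lemma built_small {S : Finset ℕ} (h : S.card ≤ 1) : Built 1 S :=
  ⟨fun _ => S, fun _ _ => Or.inl h, 0, by omega, rfl⟩

theorem Built.union {s s' : ℕ} {S T : Finset ℕ} (h : Built s S) (h' : Built s' T) (u v : ℕ)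
    (hd : Disjoint (tr S u) (tr T v)) : Built (s + s' + 1) (tr S u ∪ tr T v) := by
  obtain ⟨F, hF, a, ha, rfl⟩ := h
  obtain ⟨F', hF', b, hb, rfl⟩ := h'
  obtain ⟨G, hG⟩ : ∃ G : ℕ → Finset ℕ, G = fun i => if i < s then F i else if i < s + s' then
    F' (i - s) else tr (F a) u ∪ tr (F' b) v := ⟨_, rfl⟩
  have g1 : ∀ i < s, G i = F i := fun i hi => by rw [hG]; exact if_pos hi
  have g2 : ∀ i < s', G (i + s) = F' i := fun i hi => by
    rw [hG]
    simp only
    rw [if_neg (by omega), if_pos (by omega)]
    congr 1
    omega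
  have g3 : G (s + s') = tr (F a) u ∪ tr (F' b) v := by
    rw [hG]
    simp only
    rw [if_neg (by omega), if_neg (by omega)]
  refine ⟨G, ?_, s + s', by omega, g3⟩
  intro i hi
  rcases Nat.lt_or_ge i s with h1 | h1
  · rw [g1 i h1]
    rcases hF i h1 with h2 | ⟨j, hj, k, hk, x, y, h3, h4⟩
    · exact Or.inl h2
    · refine Or.inr ⟨j, hj, k, hk, x, y, ?_, ?_⟩
      · rw [g1 j (by omega), g1 k (by omega)]
        exact h3
      · rw [g1 j (by omega), g1 k (by omega)]
        exact h4
  · rcases Nat.lt_or_ge i (s + s') with h2 | h2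
    · obtain ⟨i', rfl⟩ : ∃ i', i = i' + s := ⟨i - s, by omega⟩
      rw [g2 i' (by omega)]
      rcases hF' i' (by omega) with h3 | ⟨j, hj, k, hk, x, y, h3, h4⟩
      · exact Or.inl h3
      · refine Or.inr ⟨j + s, by omega, k + s, by omega, x, y, ?_, ?_⟩
        · rw [g2 j (by omega), g2 k (by omega)]
          exact h3
        · rw [g2 j (by omega), g2 k (by omega)]
          exact h4
    · have h3 : i = s + s' := by omega
      rw [h3, g3]
      refine Or.inr ⟨a, by omega, b + s, by omega, u, v, ?_, ?_⟩
      · rw [g1 a ha, g2 b hb]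
        exact hd
      · rw [g1 a ha, g2 b hb]
        rfl

lemma Built.trans {s : ℕ} {S : Finset ℕ} (h : Built s S) (u : ℕ) : Built s (tr S u) := by
  obtain ⟨F, hF, a, ha, rfl⟩ := h
  refine ⟨fun i => tr (F i) u, ?_, a, ha, rfl⟩
  intro i hi
  rcases hF i hi with h1 | ⟨j, hj, k, hk, x, y, h3, h4⟩
  · exact Or.inl (by rw [card_tr]; exact h1)
  · change Disjoint (tr (F j) x) (tr (F k) y) at h3
    change F i = tr (F j) x ∪ tr (F k) y at h4
    refine Or.inr ⟨j, hj, k, hk, x, y, ?_, ?_⟩
    · change Disjoint (tr (tr (F j) u) x) (tr (tr (F k) u) y)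
      have e1 := tr_disjoint h3 u
      rw [tr_tr, tr_tr] at e1
      rw [tr_tr, tr_tr, add_comm u x, add_comm u y]
      exact e1
    · change tr (F i) u = tr (tr (F j) u) x ∪ tr (tr (F k) u) y
      rw [h4, tr_union, tr_tr, tr_tr, tr_tr, tr_tr, add_comm u x, add_comm u y]

theorem built_card (S : Finset ℕ) : Built (2 * S.card + 1) S := by
  induction S using Finset.induction_on with
  | empty => exact built_small (by simp)
  | insert a S ha ih =>
    have h1 : Built 1 ({a} : Finset ℕ) := built_small (by simp)
    have h2 := ih.union h1 0 0 (by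
      rw [tr_zero, tr_zero]
      simpa using ha)
    rw [tr_zero, tr_zero] at h2
    have h3 : insert a S = S ∪ {a} := by
      rw [insert_eq, union_comm]
    rw [h3, card_union_of_disjoint (by simpa using ha), card_singleton]
    have h4 : 2 * (S.card + 1) + 1 = 2 * S.card + 1 + 1 + 1 := by ring
    rw [h4]
    exact h2

lemma built_cost (S : Finset ℕ) : Built (cost S) S := by
  have h : {s | Built s S}.Nonempty := ⟨_, built_card S⟩
  exact Nat.sInf_mem h

theorem cost_le_card (S : Finset ℕ) : cost S ≤ 2 * S.card + 1 := (built_card S).le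

/-- the places of the ones in a word given by a grammar -/
theorem built_ones {s : ℕ} {w : List Bool} (h : Gen s w) : Built s (ones w) := by
  obtain ⟨F, hF, a, ha, rfl⟩ := h
  refine ⟨fun i => ones (F i), ?_, a, ha, rfl⟩
  intro i hi
  rcases hF i hi with ⟨c, hc⟩ | ⟨j, hj, k, hk, hjk⟩
  · left
    simp only
    rw [hc]
    have : ones [c] ⊆ {0} := by
      intro x hx
      have := lt_of_mem_ones hx
      simp at this
      simp [this]
    exact (card_le_card this).trans (by simp)
  · refine Or.inr ⟨j, hj, k, hk, 0, (F j).length, ?_, ?_⟩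
    · rw [disjoint_left]
      intro x hx hx'
      obtain ⟨y, hy, rfl⟩ := mem_image.1 hx
      obtain ⟨z, hz, hyz⟩ := mem_image.1 hx'
      have := lt_of_mem_ones hy
      omega
    · simp only
      ext x
      rw [mem_union, mem_image, mem_image, hjk, mem_ones]
      constructor
      · intro hx
        rcases Nat.lt_or_ge x (F j).length with h1 | h1
        · left
          rw [List.getElem?_append_left h1] at hx
          exact ⟨x, mem_ones.2 hx, by omega⟩
        · right
          rw [List.getElem?_append_right h1] at hx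
          exact ⟨x - (F j).length, mem_ones.2 hx, by omega⟩
      · rintro (⟨y, hy, rfl⟩ | ⟨y, hy, rfl⟩)
        · rw [add_zero, List.getElem?_append_left (lt_of_mem_ones hy)]
          exact mem_ones.1 hy
        · rw [List.getElem?_append_right (by omega)]
          rw [Nat.add_sub_cancel]
          exact mem_ones.1 hy

/-- direct sums -/
theorem Built.add {s s' : ℕ} {X Y : Finset ℕ} (hX : Built s X) (hY : Built s' Y)
    (hinj : ∀ x ∈ X, ∀ y ∈ Y, ∀ x' ∈ X, ∀ y' ∈ Y, x + y = x' + y' → x = x') :
    Built (s + s' + 1) ((X ×ˢ Y).image (fun p => p.1 + p.2)) := by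
  classical
  obtain ⟨F, hF, a, ha, rfl⟩ := hX
  obtain ⟨F', hF', b, hb, rfl⟩ := hY
  obtain ⟨sm, hsm⟩ : ∃ sm : Finset ℕ → Finset ℕ, sm = fun Z => (Z ×ˢ F' b).image
    (fun p => p.1 + p.2) := ⟨_, rfl⟩
  have msm : ∀ Z x, x ∈ sm Z ↔ ∃ z ∈ Z, ∃ y ∈ F' b, z + y = x := by
    intro Z x
    rw [hsm]
    simp only [mem_image, mem_product, Prod.exists]
    constructor
    · rintro ⟨z, y, ⟨h1, h2⟩, h3⟩
      exact ⟨z, h1, y, h2, h3⟩
    · rintro ⟨z, h1, y, h2, h3⟩
      exact ⟨z, y, ⟨h1, h2⟩, h3⟩
  obtain ⟨used, hused⟩ : ∃ used : ℕ → Prop, used = fun i => ∃ w, tr (F i) w ⊆ F a := ⟨_, rfl⟩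
  obtain ⟨G, hG⟩ : ∃ G : ℕ → Finset ℕ, G = fun i => if i < s' then F' i else if i = s' then ∅ else
    if used (i - (s' + 1)) then sm (F (i - (s' + 1))) else ∅ := ⟨_, rfl⟩
  have g1 : ∀ i < s', G i = F' i := fun i hi => by rw [hG]; exact if_pos hi
  have g2 : G s' = ∅ := by
    rw [hG]
    simp
  have g3 : ∀ i, used i → G (i + (s' + 1)) = sm (F i) := by
    intro i hi
    rw [hG]
    simp only
    rw [if_neg (by omega), if_neg (by omega), Nat.add_sub_cancel, if_pos hi]
  have g4 : ∀ i, ¬ used i → G (i + (s' + 1)) = ∅ := by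
    intro i hi
    rw [hG]
    simp only
    rw [if_neg (by omega), if_neg (by omega), Nat.add_sub_cancel, if_neg hi]
  have husa : used a := by
    rw [hused]
    exact ⟨0, by rw [tr_zero]⟩
  refine ⟨G, ?_, a + (s' + 1), by omega, ?_⟩
  · intro i hi
    rcases Nat.lt_or_ge i s' with h1 | h1
    · rw [g1 i h1]
      rcases hF' i h1 with h2 | ⟨j, hj, k, hk, x, y, h3, h4⟩
      · exact Or.inl h2
      · refine Or.inr ⟨j, hj, k, hk, x, y, ?_, ?_⟩
        · rw [g1 j (by omega), g1 k (by omega)]
          exact h3
        · rw [g1 j (by omega), g1 k (by omega)]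
          exact h4
    · rcases Nat.eq_or_lt_of_le h1 with h2 | h2
      · rw [← h2, g2]
        exact Or.inl (by simp)
      · obtain ⟨i', rfl⟩ : ∃ i', i = i' + (s' + 1) := ⟨i - (s' + 1), by omega⟩
        by_cases hu : used i'
        · rw [g3 i' hu]
          rcases hF i' (by omega) with h3 | ⟨j, hj, k, hk, x, y, h3, h4⟩
          · rcases Nat.lt_or_ge (F i').card 1 with h4 | h4
            · left
              have h5 : F i' = ∅ := by
                rw [← card_eq_zero]
                omega
              have h6 : sm (F i') = ∅ := by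
                rw [eq_empty_iff_forall_notMem]
                intro x hx
                obtain ⟨z, hz, _⟩ := (msm _ _).1 hx
                rw [h5] at hz
                simp at hz
              rw [h6]
              simp
            · obtain ⟨c, hc⟩ := card_eq_one.1 (le_antisymm h3 h4)
              refine Or.inr ⟨b, by omega, s', by omega, c, 0, ?_, ?_⟩
              · rw [g2]
                simp
              · rw [g2, g1 b hb]
                ext x
                rw [msm, hc]
                simp only [mem_singleton, exists_eq_left, image_empty, union_empty, mem_image]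
                constructor
                · rintro ⟨y, hy, rfl⟩
                  exact ⟨y, hy, by omega⟩
                · rintro ⟨y, hy, rfl⟩
                  exact ⟨y, hy, by omega⟩
          · change Disjoint (tr (F j) x) (tr (F k) y) at h3
            change F i' = tr (F j) x ∪ tr (F k) y at h4
            obtain ⟨w, hw⟩ : ∃ w, tr (F i') w ⊆ F a := by
              rw [hused] at hu
              exact hu
            have hwj : tr (F j) (x + w) ⊆ F a := by
              rw [← tr_tr]
              refine (tr_mono ?_ w).trans hw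
              rw [h4]
              exact subset_union_left
            have hwk : tr (F k) (y + w) ⊆ F a := by
              rw [← tr_tr]
              refine (tr_mono ?_ w).trans hw
              rw [h4]
              exact subset_union_right
            have huj : used j := by
              rw [hused]
              exact ⟨_, hwj⟩
            have huk : used k := by
              rw [hused]
              exact ⟨_, hwk⟩
            refine Or.inr ⟨j + (s' + 1), by omega, k + (s' + 1), by omega, x, y, ?_, ?_⟩
            · rw [g3 j huj, g3 k huk]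
              rw [disjoint_left]
              intro z hz hz'
              obtain ⟨p, hp, rfl⟩ := mem_image.1 hz
              obtain ⟨q, hq, hpq⟩ := mem_image.1 hz'
              obtain ⟨c, hc, d, hd, rfl⟩ := (msm _ _).1 hp
              obtain ⟨c', hc', d', hd', rfl⟩ := (msm _ _).1 hq
              have e1 := hinj _ (hwj (mem_tr.2 ⟨c, hc, rfl⟩)) d hd _
                (hwk (mem_tr.2 ⟨c', hc', rfl⟩)) d' hd' (by omega)
              refine (disjoint_left.1 h3) (mem_tr.2 ⟨c, hc, rfl⟩) (mem_tr.2 ⟨c', hc', ?_⟩)
              omega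
            · rw [g3 j huj, g3 k huk]
              ext z
              rw [mem_union, mem_image, mem_image, msm, h4]
              constructor
              · rintro ⟨c, hc, d, hd, rfl⟩
                rcases mem_union.1 hc with hc | hc
                · obtain ⟨e, he, rfl⟩ := mem_tr.1 hc
                  exact Or.inl ⟨e + d, (msm _ _).2 ⟨e, he, d, hd, rfl⟩, by omega⟩
                · obtain ⟨e, he, rfl⟩ := mem_tr.1 hc
                  exact Or.inr ⟨e + d, (msm _ _).2 ⟨e, he, d, hd, rfl⟩, by omega⟩
              · rintro (⟨e, he, rfl⟩ | ⟨e, he, rfl⟩)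
                · obtain ⟨c, hc, d, hd, rfl⟩ := (msm _ _).1 he
                  exact ⟨c + x, mem_union_left _ (mem_tr.2 ⟨c, hc, rfl⟩), d, hd, by omega⟩
                · obtain ⟨c, hc, d, hd, rfl⟩ := (msm _ _).1 he
                  exact ⟨c + y, mem_union_right _ (mem_tr.2 ⟨c, hc, rfl⟩), d, hd, by omega⟩
        · rw [g4 i' hu]
          exact Or.inl (by simp)
  · rw [g3 a husa, hsm]

end Pool.Agent.Helper42.GP
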