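import Pool.Agent.Helper42.GC.Word

/-!
# Two sets with a large intersection, and the bound
-/

set_option autoImplicit false

open Finset

namespace Pool.Agent.Helper42.GP

open Pool.Agent.Helper42.GC (rf)

/-- many sets of positive density: two of them have a large intersection -/
theorem two_sets {ι : Type*} [DecidableEq ι] (S : Finset ι) (U : Finset ℕ) (X : ι → Finset ℕ)
    (hX : ∀ i ∈ S, X i ⊆ U) {K : ℕ} (hK : 1 ≤ K) (hU : 1 ≤ U.card) (hn : 32 * K ^ 2 ≤ S.card)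
    (h : S.card * U.card ≤ 4 * K * ∑ i ∈ S, (X i).card) :
    ∃ i ∈ S, ∃ j ∈ S, i ≠ j ∧ U.card ≤ 32 * K ^ 2 * (X i ∩ X j).card := by
  classical
  by_contra hcon
  push Not at hcon
  obtain ⟨n, hn'⟩ : ∃ n, n = S.card := ⟨_, rfl⟩
  obtain ⟨N, hN⟩ : ∃ N, N = U.card := ⟨_, rfl⟩
  obtain ⟨x, hx⟩ : ∃ x, x = ∑ i ∈ S, (X i).card := ⟨_, rfl⟩
  rw [← hn', ← hN, ← hx] at h
  rw [← hn'] at hn
  rw [← hN] at hU
  -- degrees
  obtain ⟨d, hd⟩ : ∃ d : ℕ → ℕ, d = fun u => (S.filter (fun i => u ∈ X i)).card := ⟨_, rfl⟩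
  have h1 : ∑ u ∈ U, d u = x := by
    rw [hx, hd]
    simp only [card_filter]
    rw [sum_comm]
    refine sum_congr rfl fun i hi => ?_
    rw [← card_filter]
    congr 1
    ext u
    rw [mem_filter]
    exact ⟨fun h => h.2, fun h => ⟨hX i hi h, h⟩⟩
  have h2 : ∑ u ∈ U, d u ^ 2 = ∑ i ∈ S, ∑ j ∈ S, (X i ∩ X j).card := by
    have e : ∀ u, d u ^ 2 = ∑ i ∈ S, ∑ j ∈ S, if u ∈ X i ∩ X j then 1 else 0 := by
      intro u
      rw [hd, pow_two]
      simp only [card_filter]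
      rw [sum_mul_sum]
      refine sum_congr rfl fun i _ => sum_congr rfl fun j _ => ?_
      by_cases hi : u ∈ X i
      · by_cases hj : u ∈ X j
        · simp [hi, hj]
        · simp [hi, hj]
      · simp [hi]
    simp only [e]
    rw [sum_comm]
    refine sum_congr rfl fun i hi => ?_
    rw [sum_comm]
    refine sum_congr rfl fun j _ => ?_
    rw [← card_filter]
    congr 1
    ext u
    rw [mem_filter]
    exact ⟨fun h => h.2, fun h => ⟨hX i hi (mem_inter.1 h).1, h⟩⟩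
  have h3 : x ^ 2 ≤ N * ∑ i ∈ S, ∑ j ∈ S, (X i ∩ X j).card := by
    rw [← h2, ← h1, hN]
    exact sq_sum_le_card_mul_sum_sq
  have h4 : 32 * K ^ 2 * ∑ i ∈ S, ∑ j ∈ S, (X i ∩ X j).card ≤ 32 * K ^ 2 * x + n * (n * N) := by
    have h5 : ∀ i ∈ S, 32 * K ^ 2 * ∑ j ∈ S, (X i ∩ X j).card ≤
        32 * K ^ 2 * (X i).card + n * N := by
      intro i hi
      rw [← add_sum_erase S _ hi, mul_add, inter_self]
      refine Nat.add_le_add_left ?_ _
      rw [mul_sum]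
      have h6 := sum_le_card_nsmul (S.erase i) (fun j => 32 * K ^ 2 * (X i ∩ X j).card) N (by
        intro j hj
        have h7 := hcon i hi j (mem_of_mem_erase hj) (ne_of_mem_erase hj).symm
        rw [← hN] at h7
        exact h7.le)
      refine h6.trans ?_
      rw [smul_eq_mul]
      refine Nat.mul_le_mul_right _ ?_
      rw [hn']
      exact card_le_card (erase_subset _ _)
    rw [mul_sum]
    refine (sum_le_sum h5).trans ?_
    rw [sum_add_distrib, ← mul_sum, ← hx, sum_const, smul_eq_mul, ← hn']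
  -- the contradiction
  have h5 : 32 * K ^ 2 * x ^ 2 ≤ N * (32 * K ^ 2 * x + n * (n * N)) := by
    calc 32 * K ^ 2 * x ^ 2 ≤ 32 * K ^ 2 * (N * ∑ i ∈ S, ∑ j ∈ S, (X i ∩ X j).card) :=
          Nat.mul_le_mul_left _ h3
      _ = N * (32 * K ^ 2 * ∑ i ∈ S, ∑ j ∈ S, (X i ∩ X j).card) := by ring
      _ ≤ _ := Nat.mul_le_mul_left _ h4
  have h6 : (n * N) ^ 2 ≤ (4 * K * x) ^ 2 := Nat.pow_le_pow_left h 2
  have h7 : 32 * K ^ 2 * N ≤ 4 * K * x := (Nat.mul_le_mul_right N hn).trans h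
  have h8 : 8 * K * N ≤ x := by
    have h9 : 4 * K * (8 * K * N) ≤ 4 * K * x := by
      calc 4 * K * (8 * K * N) = 32 * K ^ 2 * N := by ring
        _ ≤ _ := h7
    exact Nat.le_of_mul_le_mul_left h9 (by omega)
  have h9 : 8 * N ≤ x := by
    refine le_trans ?_ h8
    calc 8 * N = 8 * 1 * N := by ring
      _ ≤ 8 * K * N := Nat.mul_le_mul_right _ (Nat.mul_le_mul_left _ hK)
  have hK2 : 1 ≤ K ^ 2 := Nat.one_le_pow _ _ hK
  have hx0 : 1 ≤ x := by omega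
  have h10 : N * (32 * K ^ 2 * x) ≤ 4 * (K ^ 2 * x ^ 2) := by
    calc N * (32 * K ^ 2 * x) = 4 * (K ^ 2 * x * (8 * N)) := by ring
      _ ≤ 4 * (K ^ 2 * x * x) := Nat.mul_le_mul_left _ (Nat.mul_le_mul_left _ h9)
      _ = 4 * (K ^ 2 * x ^ 2) := by ring
  have h11 : N * (n * (n * N)) ≤ 16 * (K ^ 2 * x ^ 2) := by
    calc N * (n * (n * N)) = (n * N) ^ 2 := by ring
      _ ≤ (4 * K * x) ^ 2 := h6
      _ = 16 * (K ^ 2 * x ^ 2) := by ring
  have h12 : 32 * (K ^ 2 * x ^ 2) ≤ 20 * (K ^ 2 * x ^ 2) := by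
    calc 32 * (K ^ 2 * x ^ 2) = 32 * K ^ 2 * x ^ 2 := by ring
      _ ≤ N * (32 * K ^ 2 * x + n * (n * N)) := h5
      _ = N * (32 * K ^ 2 * x) + N * (n * (n * N)) := by ring
      _ ≤ 4 * (K ^ 2 * x ^ 2) + 16 * (K ^ 2 * x ^ 2) := Nat.add_le_add h10 h11
      _ = _ := by ring
  have h13 : 1 ≤ K ^ 2 * x ^ 2 := Nat.mul_pos hK2 (Nat.one_le_pow _ _ hx0)
  omega

lemma card_le_one_of_rf {X : Finset ℕ} (h : ∀ n, rf X n < 2) : X.card ≤ 1 := by
  classical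
  by_contra hcon
  push Not at hcon
  obtain ⟨a, ha, b, hb, hab⟩ := one_lt_card.1 hcon
  have h1 := h (a + b)
  have h2 : ({(a, b), (b, a)} : Finset (ℕ × ℕ)).card = 2 := by
    rw [card_pair]
    intro h3
    exact hab (Prod.mk.inj h3).1
  have h3 : ({(a, b), (b, a)} : Finset (ℕ × ℕ)) ⊆ (X ×ˢ X).filter (fun p => p.1 + p.2 = a + b) := by
    intro p hp
    rw [mem_insert, mem_singleton] at hp
    rw [mem_filter, mem_product]
    rcases hp with rfl | rfl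
    · exact ⟨⟨ha, hb⟩, rfl⟩
    · exact ⟨⟨hb, ha⟩, by simp only; omega⟩
  have h4 := card_le_card h3
  unfold rf at h1
  omega

/-- the bound -/
def fb (s : ℕ) : ℕ → ℕ → ℕ
  | 0, K => K
  | t + 1, K => 256 * (s * (s + 2)) * K ^ 4 * (fb s t (32 * K ^ 2) + 1)

lemma fb_pos {s : ℕ} (hs : 1 ≤ s) : ∀ t K, 1 ≤ K → 1 ≤ fb s t K := by
  intro t
  induction t with
  | zero => intro K hK; exact hK
  | succ t _ =>
    intro K hK
    show 1 ≤ 256 * (s * (s + 2)) * K ^ 4 * (fb s t (32 * K ^ 2) + 1)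
    exact Nat.mul_pos (Nat.mul_pos (Nat.mul_pos (by norm_num) (Nat.mul_pos hs (by omega)))
      (Nat.pow_pos hK)) (by omega)

/-- the closed form of the bound -/
theorem fb_le {s : ℕ} (hs : 1 ≤ s) : ∀ t K, 1 ≤ K →
    (32 * K) ^ 4 * fb s t K ≤ (40 * s) ^ (2 * t) * (32 * K) ^ (5 * 2 ^ t) := by
  intro t
  induction t with
  | zero =>
    intro K hK
    show (32 * K) ^ 4 * K ≤ _
    simp only [mul_zero, pow_zero, one_mul, mul_one]
    calc (32 * K) ^ 4 * K ≤ (32 * K) ^ 4 * (32 * K) := Nat.mul_le_mul_left _ (by omega)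
      _ = (32 * K) ^ 5 := by ring
  | succ t ih =>
    intro K hK
    have hK2 : 1 ≤ K ^ 2 := Nat.one_le_pow _ _ hK
    have h1 := ih (32 * K ^ 2) (by omega)
    have h2 := fb_pos hs t (32 * K ^ 2) (by omega)
    obtain ⟨f, hf⟩ : ∃ f, f = fb s t (32 * K ^ 2) := ⟨_, rfl⟩
    rw [← hf] at h1 h2
    show (32 * K) ^ 4 * (256 * (s * (s + 2)) * K ^ 4 * (fb s t (32 * K ^ 2) + 1)) ≤ _
    rw [← hf]
    have h3 : s * (s + 2) ≤ 3 * s ^ 2 := by nlinarith
    have h4 : (32 * (32 * K ^ 2)) ^ 4 = (32 * K) ^ 4 * (32 * K) ^ 4 := by ring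
    have h5 : (32 * (32 * K ^ 2)) ^ (5 * 2 ^ t) = (32 * K) ^ (5 * 2 ^ (t + 1)) := by
      rw [show 32 * (32 * K ^ 2) = (32 * K) ^ 2 by ring, ← pow_mul]
      congr 1
      rw [pow_succ]
      ring
    rw [h4, h5] at h1
    calc (32 * K) ^ 4 * (256 * (s * (s + 2)) * K ^ 4 * (f + 1))
        ≤ (32 * K) ^ 4 * (256 * (3 * s ^ 2) * K ^ 4 * (2 * f)) := by
          refine Nat.mul_le_mul_left _ (Nat.mul_le_mul (Nat.mul_le_mul_right _
            (Nat.mul_le_mul_left _ h3)) (by omega))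
      _ = 1536 * s ^ 2 * ((32 * K) ^ 4 * K ^ 4 * f) := by ring
      _ ≤ (40 * s) ^ 2 * ((32 * K) ^ 4 * (32 * K) ^ 4 * f) := by
          refine Nat.mul_le_mul ?_ (Nat.mul_le_mul_right _ (Nat.mul_le_mul_left _
            (Nat.pow_le_pow_left (by omega) 4)))
          calc 1536 * s ^ 2 ≤ 1600 * s ^ 2 := Nat.mul_le_mul_right _ (by norm_num)
            _ = (40 * s) ^ 2 := by ring
      _ ≤ (40 * s) ^ 2 * ((40 * s) ^ (2 * t) * (32 * K) ^ (5 * 2 ^ (t + 1))) :=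
          Nat.mul_le_mul_left _ h1
      _ = (40 * s) ^ (2 * (t + 1)) * (32 * K) ^ (5 * 2 ^ (t + 1)) := by
          rw [← mul_assoc, ← pow_add]
          congr 2
          ring


end Pool.Agent.Helper42.GP
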