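import Pool.Agent.Helper42.GP.Defs
import Pool.Agent.Helper42.GP.Pair

/-!
# Decompositions into translates of the earlier sets of a program
-/

set_option autoImplicit false

open Finset

namespace Pool.Agent.Helper42.GP

open Pool.Agent.Helper42.GC (rf)

/-- the translate of `S` by `u` -/
def tr (S : Finset ℕ) (u : ℕ) : Finset ℕ := S.image (fun a => a + u)

lemma mem_tr {S : Finset ℕ} {u a : ℕ} : a ∈ tr S u ↔ ∃ b ∈ S, b + u = a := mem_image

lemma card_tr (S : Finset ℕ) (u : ℕ) : (tr S u).card = S.card :=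
  card_image_of_injective _ (add_left_injective u)

lemma tr_tr (S : Finset ℕ) (u v : ℕ) : tr (tr S u) v = tr S (u + v) := by
  ext a
  simp only [mem_tr]
  constructor
  · rintro ⟨b, ⟨c, hc, rfl⟩, rfl⟩
    exact ⟨c, hc, by omega⟩
  · rintro ⟨c, hc, rfl⟩
    exact ⟨c + u, ⟨c, hc, rfl⟩, by omega⟩

lemma tr_zero (S : Finset ℕ) : tr S 0 = S := by
  ext a
  simp only [mem_tr]
  constructor
  · rintro ⟨b, hb, rfl⟩
    exact hb
  · intro h
    exact ⟨a, h, rfl⟩

lemma tr_union (S T : Finset ℕ) (u : ℕ) : tr (S ∪ T) u = tr S u ∪ tr T u := image_union _ _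

lemma tr_disjoint {S T : Finset ℕ} (h : Disjoint S T) (u : ℕ) : Disjoint (tr S u) (tr T u) :=
  (disjoint_image (add_left_injective u)).2 h

lemma tr_mono {S T : Finset ℕ} (h : S ⊆ T) (u : ℕ) : tr S u ⊆ tr T u := image_subset_image h

/-- `S` is the disjoint union of the translates of `F p.1` by `p.2`, for the pairs `p` in `D` -/
structure Dec (F : ℕ → Finset ℕ) (S : Finset ℕ) (D : Finset (ℕ × ℕ)) : Prop where
  ne : ∀ p ∈ D, (F p.1).Nonempty
  dis : ∀ p ∈ D, ∀ q ∈ D, p ≠ q → Disjoint (tr (F p.1) p.2) (tr (F q.1) q.2)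
  eq : ∀ a, a ∈ S ↔ ∃ p ∈ D, a ∈ tr (F p.1) p.2

/-- the translate of a decomposition -/
def sh (D : Finset (ℕ × ℕ)) (u : ℕ) : Finset (ℕ × ℕ) := D.image (fun p => (p.1, p.2 + u))

lemma mem_sh {D : Finset (ℕ × ℕ)} {u : ℕ} {p : ℕ × ℕ} :
    p ∈ sh D u ↔ ∃ q ∈ D, (q.1, q.2 + u) = p := mem_image

lemma sh_inj (u : ℕ) : Function.Injective (fun p : ℕ × ℕ => (p.1, p.2 + u)) := by
  rintro ⟨a, b⟩ ⟨c, d⟩ h
  simp only [Prod.mk.injEq] at h
  ext <;> simp <;> omega

lemma Dec.shift {F : ℕ → Finset ℕ} {S : Finset ℕ} {D : Finset (ℕ × ℕ)} (h : Dec F S D) (u : ℕ) :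
    Dec F (tr S u) (sh D u) := by
  refine ⟨?_, ?_, ?_⟩
  · intro p hp
    obtain ⟨q, hq, rfl⟩ := mem_sh.1 hp
    exact h.ne q hq
  · intro p hp q hq hpq
    obtain ⟨p', hp', rfl⟩ := mem_sh.1 hp
    obtain ⟨q', hq', rfl⟩ := mem_sh.1 hq
    have h1 := tr_disjoint (h.dis p' hp' q' hq' (by rintro rfl; exact hpq rfl)) u
    rw [tr_tr, tr_tr] at h1
    exact h1
  · intro a
    rw [mem_tr]
    constructor
    · rintro ⟨b, hb, rfl⟩
      obtain ⟨p, hp, hb2⟩ := (h.eq b).1 hb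
      refine ⟨(p.1, p.2 + u), mem_sh.2 ⟨p, hp, rfl⟩, ?_⟩
      rw [← tr_tr]
      exact mem_tr.2 ⟨b, hb2, rfl⟩
    · rintro ⟨p, hp, ha⟩
      obtain ⟨q, hq, rfl⟩ := mem_sh.1 hp
      simp only at ha
      rw [← tr_tr, mem_tr] at ha
      obtain ⟨b, hb, rfl⟩ := ha
      exact ⟨b, (h.eq b).2 ⟨q, hq, hb⟩, rfl⟩

lemma Dec.disj {F : ℕ → Finset ℕ} {S T : Finset ℕ} {D E : Finset (ℕ × ℕ)} (h : Dec F S D)
    (h' : Dec F T E) (hd : Disjoint S T) : Disjoint D E := by
  rw [disjoint_left]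
  intro p hp hp'
  obtain ⟨a, ha⟩ := h.ne p hp
  have h1 : a + p.2 ∈ tr (F p.1) p.2 := mem_tr.2 ⟨a, ha, rfl⟩
  exact (disjoint_left.1 hd) ((h.eq _).2 ⟨p, hp, h1⟩) ((h'.eq _).2 ⟨p, hp', h1⟩)

lemma Dec.union {F : ℕ → Finset ℕ} {S T : Finset ℕ} {D E : Finset (ℕ × ℕ)} (h : Dec F S D)
    (h' : Dec F T E) (hd : Disjoint S T) : Dec F (S ∪ T) (D ∪ E) := by
  refine ⟨?_, ?_, ?_⟩
  · intro p hp
    rcases mem_union.1 hp with hp | hp
    · exact h.ne p hp
    · exact h'.ne p hp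
  · intro p hp q hq hpq
    rcases mem_union.1 hp with hp | hp
    · rcases mem_union.1 hq with hq | hq
      · exact h.dis p hp q hq hpq
      · rw [disjoint_left]
        intro a ha ha'
        exact (disjoint_left.1 hd) ((h.eq _).2 ⟨p, hp, ha⟩) ((h'.eq _).2 ⟨q, hq, ha'⟩)
    · rcases mem_union.1 hq with hq | hq
      · rw [disjoint_left]
        intro a ha ha'
        exact (disjoint_left.1 hd) ((h.eq _).2 ⟨q, hq, ha'⟩) ((h'.eq _).2 ⟨p, hp, ha⟩)
      · exact h'.dis p hp q hq hpq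
  · intro a
    rw [mem_union, h.eq, h'.eq]
    constructor
    · rintro (⟨p, hp, ha⟩ | ⟨p, hp, ha⟩)
      · exact ⟨p, mem_union_left _ hp, ha⟩
      · exact ⟨p, mem_union_right _ hp, ha⟩
    · rintro ⟨p, hp, ha⟩
      rcases mem_union.1 hp with hp | hp
      · exact Or.inl ⟨p, hp, ha⟩
      · exact Or.inr ⟨p, hp, ha⟩

lemma Dec.single {F : ℕ → Finset ℕ} {m : ℕ} (h : (F m).Nonempty) : Dec F (F m) {(m, 0)} := by
  refine ⟨?_, ?_, ?_⟩
  · intro p hp
    rw [mem_singleton] at hp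
    rw [hp]
    exact h
  · intro p hp q hq hpq
    rw [mem_singleton] at hp hq
    exact absurd (hp.trans hq.symm) hpq
  · intro a
    constructor
    · intro ha
      exact ⟨(m, 0), mem_singleton_self _, by simpa [tr_zero] using ha⟩
    · rintro ⟨p, hp, ha⟩
      rw [mem_singleton] at hp
      rw [hp] at ha
      simpa [tr_zero] using ha

lemma Dec.empty {F : ℕ → Finset ℕ} : Dec F ∅ ∅ := by
  refine ⟨?_, ?_, ?_⟩ <;> simp

lemma Dec.biUnion {F : ℕ → Finset ℕ} {S : Finset ℕ} {D : Finset (ℕ × ℕ)} (h : Dec F S D) :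
    S = D.biUnion (fun p => tr (F p.1) p.2) := by
  ext a
  rw [h.eq, Finset.mem_biUnion]

lemma Dec.card {F : ℕ → Finset ℕ} {S : Finset ℕ} {D : Finset (ℕ × ℕ)} (h : Dec F S D) :
    ∑ p ∈ D, (F p.1).card = S.card := by
  rw [h.biUnion, card_biUnion h.dis]
  exact sum_congr rfl fun p _ => (card_tr _ _).symm

/-- the part of `X` in a translate -/
def part (F : ℕ → Finset ℕ) (X : Finset ℕ) (p : ℕ × ℕ) : Finset ℕ :=
  (F p.1).filter (fun a => a + p.2 ∈ X)

lemma part_subset (F : ℕ → Finset ℕ) (X : Finset ℕ) (p : ℕ × ℕ) : part F X p ⊆ F p.1 :=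
  filter_subset _ _

lemma Dec.parts {F : ℕ → Finset ℕ} {S : Finset ℕ} {D : Finset (ℕ × ℕ)} (h : Dec F S D)
    {X : Finset ℕ} (hX : X ⊆ S) : X.card ≤ ∑ p ∈ D, (part F X p).card := by
  have h1 : X ⊆ D.biUnion (fun p => tr (part F X p) p.2) := by
    intro a ha
    obtain ⟨p, hp, ha2⟩ := (h.eq a).1 (hX ha)
    obtain ⟨b, hb, rfl⟩ := mem_tr.1 ha2
    rw [Finset.mem_biUnion]
    exact ⟨p, hp, mem_tr.2 ⟨b, mem_filter.2 ⟨hb, ha⟩, rfl⟩⟩
  refine (card_le_card h1).trans (card_biUnion_le.trans (le_of_eq ?_))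
  exact sum_congr rfl fun p _ => card_tr _ _

/-- two disjoint translates of `Y` in `X` -/
lemma two_rf {X Y : Finset ℕ} {p q : ℕ} (h1 : tr Y p ⊆ X) (h2 : tr Y q ⊆ X)
    (hd : Disjoint (tr Y p) (tr Y q)) (n : ℕ) : 2 * rf Y n ≤ rf X (n + (p + q)) := by
  classical
  have m1 : ∀ a ∈ Y, a + p ∈ X := fun a ha => h1 (mem_tr.2 ⟨a, ha, rfl⟩)
  have m2 : ∀ a ∈ Y, a + q ∈ X := fun a ha => h2 (mem_tr.2 ⟨a, ha, rfl⟩)
  unfold rf
  obtain ⟨Z, hZ⟩ : ∃ Z, Z = (Y ×ˢ Y).filter (fun p => p.1 + p.2 = n) := ⟨_, rfl⟩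
  rw [← hZ]
  have hmem : ∀ r : ℕ × ℕ, r ∈ Z ↔ (r.1 ∈ Y ∧ r.2 ∈ Y) ∧ r.1 + r.2 = n := by
    intro r
    rw [hZ, mem_filter, mem_product]
  have c1 : (Z.image (fun r : ℕ × ℕ => (r.1 + p, r.2 + q))).card = Z.card := by
    apply card_image_of_injective
    rintro ⟨a, b⟩ ⟨c, d⟩ h
    simp only [Prod.mk.injEq] at h
    ext <;> simp <;> omega
  have c2 : (Z.image (fun r : ℕ × ℕ => (r.1 + q, r.2 + p))).card = Z.card := by
    apply card_image_of_injective
    rintro ⟨a, b⟩ ⟨c, d⟩ h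
    simp only [Prod.mk.injEq] at h
    ext <;> simp <;> omega
  have hd2 : Disjoint (Z.image (fun r : ℕ × ℕ => (r.1 + p, r.2 + q)))
      (Z.image (fun r : ℕ × ℕ => (r.1 + q, r.2 + p))) := by
    rw [disjoint_left]
    intro y h3 h4
    rw [mem_image] at h3 h4
    obtain ⟨r, hr, rfl⟩ := h3
    obtain ⟨r', hr', h5⟩ := h4
    simp only [Prod.mk.injEq] at h5
    refine (disjoint_left.1 hd) (mem_tr.2 ⟨r.1, ((hmem r).1 hr).1.1, rfl⟩) ?_
    exact mem_tr.2 ⟨r'.1, ((hmem r').1 hr').1.1, h5.1⟩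
  rw [two_mul]
  nth_rewrite 1 [← c1]
  rw [← c2, ← card_union_of_disjoint hd2]
  apply card_le_card
  intro y hy
  rw [mem_union, mem_image, mem_image] at hy
  rw [mem_filter, mem_product]
  rcases hy with ⟨r, hr, rfl⟩ | ⟨r, hr, rfl⟩
  · obtain ⟨⟨h1, h2⟩, h3⟩ := (hmem r).1 hr
    exact ⟨⟨m1 _ h1, m2 _ h2⟩, by simp only; omega⟩
  · obtain ⟨⟨h1, h2⟩, h3⟩ := (hmem r).1 hr
    exact ⟨⟨m2 _ h1, m1 _ h2⟩, by simp only; omega⟩

lemma rf_mono {X Y : Finset ℕ} (h : X ⊆ Y) (n : ℕ) : rf X n ≤ rf Y n :=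
  card_le_card (filter_subset_filter _ (product_subset_product h h))

/-- two parts of the same set -/
lemma two_parts {F : ℕ → Finset ℕ} {S X : Finset ℕ} {D : Finset (ℕ × ℕ)} (h : Dec F S D)
    {p q : ℕ × ℕ} (hp : p ∈ D) (hq : q ∈ D) (hpq : p ≠ q) (n : ℕ) :
    ∃ n', 2 * rf (part F X p ∩ part F X q) n ≤ rf X n' := by
  refine ⟨_, two_rf (p := p.2) (q := q.2) ?_ ?_ ?_ n⟩
  · intro a ha
    obtain ⟨b, hb, rfl⟩ := mem_tr.1 ha
    exact (mem_filter.1 (mem_inter.1 hb).1).2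
  · intro a ha
    obtain ⟨b, hb, rfl⟩ := mem_tr.1 ha
    exact (mem_filter.1 (mem_inter.1 hb).2).2
  · have h1 := h.dis p hp q hq hpq
    refine disjoint_of_subset_left (tr_mono ?_ _) (disjoint_of_subset_right (tr_mono ?_ _) h1)
    · exact inter_subset_left.trans (part_subset _ _ _)
    · exact inter_subset_right.trans (part_subset _ _ _)

/-- the total number of elements of the small pieces -/
def tiny (F : ℕ → Finset ℕ) (b : ℕ) (D : Finset (ℕ × ℕ)) : ℕ :=
  ∑ p ∈ D, if (F p.1).card < b then (F p.1).card else 0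

lemma tiny_union {F : ℕ → Finset ℕ} {b : ℕ} {D E : Finset (ℕ × ℕ)} (h : Disjoint D E) :
    tiny F b (D ∪ E) = tiny F b D + tiny F b E := sum_union h

lemma tiny_sh {F : ℕ → Finset ℕ} {b : ℕ} (D : Finset (ℕ × ℕ)) (u : ℕ) :
    tiny F b (sh D u) = tiny F b D := by
  unfold tiny sh
  rw [sum_image fun x _ y _ hxy => sh_inj u hxy]

/-- **The decomposition into sets with at most `B` elements.** -/
theorem decomp {s : ℕ} {F : ℕ → Finset ℕ} (hF : Program s F) {b B : ℕ} (hB : 1 ≤ B) :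
    ∀ m, m < s → ∃ D, Dec F (F m) D ∧ (∀ p ∈ D, p.1 ≤ m ∧ (F p.1).card ≤ B) ∧
      (((F m).card ≤ B ∧ tiny F b D ≤ b) ∨
        (B < (F m).card ∧ ∃ μ, 1 ≤ μ ∧ B * μ ≤ (F m).card ∧ tiny F b D ≤ (m + 2) * (b * μ))) := by
  intro m
  induction m using Nat.strong_induction_on with
  | _ m ih =>
    intro hm
    rcases Nat.lt_or_ge B (F m).card with hlt | hge
    · rcases hF m hm with h0 | ⟨j, hj, k, hk, u, v, hd, hjk⟩
      · omega
      · change Disjoint (tr (F j) u) (tr (F k) v) at hd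
        change F m = tr (F j) u ∪ tr (F k) v at hjk
        obtain ⟨D₁, h1, h2, h3⟩ := ih j hj (by omega)
        obtain ⟨D₂, h4, h5, h6⟩ := ih k hk (by omega)
        have hsum : (F m).card = (F j).card + (F k).card := by
          rw [hjk, card_union_of_disjoint hd, card_tr, card_tr]
        have hdd := (h1.shift u).disj (h4.shift v) hd
        have ht : tiny F b (sh D₁ u ∪ sh D₂ v) = tiny F b D₁ + tiny F b D₂ := by
          rw [tiny_union hdd, tiny_sh, tiny_sh]
        refine ⟨sh D₁ u ∪ sh D₂ v, ?_, ?_, Or.inr ⟨hlt, ?_⟩⟩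
        · rw [hjk]
          exact (h1.shift u).union (h4.shift v) hd
        · intro p hp
          rcases mem_union.1 hp with hp | hp
          · obtain ⟨q, hq, rfl⟩ := mem_sh.1 hp
            exact ⟨(h2 q hq).1.trans hj.le, (h2 q hq).2⟩
          · obtain ⟨q, hq, rfl⟩ := mem_sh.1 hp
            exact ⟨(h5 q hq).1.trans hk.le, (h5 q hq).2⟩
        · rcases h3 with ⟨h7, e1⟩ | ⟨h7, μ₁, h8, h9, h10⟩
          · rcases h6 with ⟨h11, e2⟩ | ⟨h11, μ₂, h12, h13, h14⟩
            · refine ⟨1, le_rfl, by omega, ?_⟩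
              rw [ht]
              calc tiny F b D₁ + tiny F b D₂ ≤ 2 * b := by omega
                _ ≤ (m + 2) * (b * 1) := by
                  rw [mul_one]
                  exact Nat.mul_le_mul_right _ (by omega)
            · refine ⟨μ₂, h12, by omega, ?_⟩
              rw [ht]
              have e3 : b ≤ b * μ₂ := Nat.le_mul_of_pos_right _ (by omega)
              calc tiny F b D₁ + tiny F b D₂ ≤ b * μ₂ + (k + 2) * (b * μ₂) := by omega
                _ = (k + 1 + 2) * (b * μ₂) := by ring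
                _ ≤ (m + 2) * (b * μ₂) := Nat.mul_le_mul_right _ (by omega)
          · rcases h6 with ⟨h11, e2⟩ | ⟨h11, μ₂, h12, h13, h14⟩
            · refine ⟨μ₁, h8, by omega, ?_⟩
              rw [ht]
              have e3 : b ≤ b * μ₁ := Nat.le_mul_of_pos_right _ (by omega)
              calc tiny F b D₁ + tiny F b D₂ ≤ (j + 2) * (b * μ₁) + b * μ₁ := by omega
                _ = (j + 1 + 2) * (b * μ₁) := by ring
                _ ≤ (m + 2) * (b * μ₁) := Nat.mul_le_mul_right _ (by omega)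
            · refine ⟨μ₁ + μ₂, by omega, by rw [mul_add]; omega, ?_⟩
              rw [ht]
              calc tiny F b D₁ + tiny F b D₂ ≤ (j + 2) * (b * μ₁) + (k + 2) * (b * μ₂) := by omega
                _ ≤ (m + 2) * (b * μ₁) + (m + 2) * (b * μ₂) := Nat.add_le_add
                    (Nat.mul_le_mul_right _ (by omega)) (Nat.mul_le_mul_right _ (by omega))
                _ = (m + 2) * (b * (μ₁ + μ₂)) := by ring
    · rcases (F m).eq_empty_or_nonempty with h0 | h0
      · refine ⟨∅, ?_, by simp, Or.inl ⟨hge, by simp [tiny]⟩⟩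
        rw [h0]
        exact Dec.empty
      · refine ⟨{(m, 0)}, Dec.single h0, ?_, Or.inl ⟨hge, ?_⟩⟩
        · intro p hp
          rw [mem_singleton] at hp
          rw [hp]
          exact ⟨le_rfl, hge⟩
        · unfold tiny
          rw [sum_singleton]
          split_ifs with h
          · exact h.le
          · exact Nat.zero_le _

/-- **Dense subsets of the sets of a program.** -/
theorem robust {s : ℕ} {F : ℕ → Finset ℕ} (hF : Program s F) : ∀ t K m : ℕ, 1 ≤ K → m < s →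
    ∀ X ⊆ F m, (F m).card ≤ K * X.card → (∀ n, rf X n < 2 ^ (t + 1)) →
      (F m).card ≤ fb s t K := by
  classical
  intro t
  induction t with
  | zero =>
    intro K m hK _ X _ h1 h2
    have h3 : X.card ≤ 1 := card_le_one_of_rf fun n => by simpa using h2 n
    show (F m).card ≤ K
    refine h1.trans ?_
    calc K * X.card ≤ K * 1 := Nat.mul_le_mul_left _ h3
      _ = K := mul_one K
  | succ t ih =>
    intro K m hK hm X hX h1 h2
    by_contra hcon
    push Not at hcon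
    obtain ⟨b, hb⟩ : ∃ b, b = fb s t (32 * K ^ 2) + 1 := ⟨_, rfl⟩
    have hfb : fb s (t + 1) K = 256 * (s * (s + 2)) * K ^ 4 * b := by rw [hb]; rfl
    rw [hfb] at hcon
    obtain ⟨B, hB⟩ : ∃ B, B = 4 * (s + 2) * K * b := ⟨_, rfl⟩
    have hb1 : 1 ≤ b := by omega
    have hs1 : 1 ≤ s := by omega
    have hB1 : 1 ≤ B := by
      rw [hB]
      exact Nat.mul_pos (Nat.mul_pos (by omega) hK) hb1
    obtain ⟨M, hM⟩ : ∃ M, M = (F m).card := ⟨_, rfl⟩
    rw [← hM] at hcon h1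
    have hMB : 64 * K ^ 3 * s * B < M := by
      refine lt_of_le_of_lt (le_of_eq ?_) hcon
      rw [hB]
      ring
    have hBM : B < M := by
      refine lt_of_le_of_lt ?_ hMB
      have : 1 ≤ 64 * K ^ 3 * s := Nat.mul_pos (Nat.mul_pos (by norm_num) (Nat.pow_pos hK)) hs1
      exact Nat.le_mul_of_pos_left _ this
    obtain ⟨D, hD, hl2, hl3⟩ := decomp hF (b := b) hB1 m hm
    obtain ⟨μ, hμ1, hμ2, hμ3⟩ : ∃ μ, 1 ≤ μ ∧ B * μ ≤ M ∧ tiny F b D ≤ (m + 2) * (b * μ) := by
      rcases hl3 with ⟨h3, _⟩ | ⟨_, h3⟩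
      · omega
      · rw [hM]
        exact h3
    have htiny : 4 * K * tiny F b D ≤ M := by
      calc 4 * K * tiny F b D ≤ 4 * K * ((m + 2) * (b * μ)) := Nat.mul_le_mul_left _ hμ3
        _ ≤ 4 * K * ((s + 2) * (b * μ)) :=
          Nat.mul_le_mul_left _ (Nat.mul_le_mul_right _ (by omega))
        _ = B * μ := by rw [hB]; ring
        _ ≤ M := hμ2
    have hsum := hD.parts hX
    have hMsum : ∑ p ∈ D, (F p.1).card = M := by rw [hD.card, hM]
    -- the small pieces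
    obtain ⟨x, hx⟩ : ∃ x : ℕ × ℕ → ℕ, x = fun p => (part F X p).card := ⟨_, rfl⟩
    have hxn : ∀ p, x p ≤ (F p.1).card := by
      intro p
      rw [hx]
      exact card_le_card (part_subset F X p)
    obtain ⟨J, hJ⟩ : ∃ J, J = D.filter (fun p => b ≤ (F p.1).card) := ⟨_, rfl⟩
    obtain ⟨J', hJ'⟩ : ∃ J', J' = D.filter (fun p => ¬ b ≤ (F p.1).card) := ⟨_, rfl⟩
    have hsplit : ∑ p ∈ D, x p = ∑ p ∈ J, x p + ∑ p ∈ J', x p := by
      rw [hJ, hJ', sum_filter_add_sum_filter_not]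
    have hJ's : ∑ p ∈ J', x p ≤ tiny F b D := by
      unfold tiny
      rw [hJ', sum_filter]
      refine sum_le_sum fun i _ => ?_
      by_cases h3 : b ≤ (F i.1).card
      · rw [if_neg (by simpa using h3), if_neg (by omega)]
      · rw [if_pos h3, if_pos (by omega)]
        exact hxn i
    have hJ1 : M ≤ K * (∑ p ∈ J, x p + ∑ p ∈ J', x p) := by
      rw [← hsplit, hx]
      exact h1.trans (Nat.mul_le_mul_left _ hsum)
    -- the groups
    obtain ⟨G, hG⟩ : ∃ G : ℕ → Finset (ℕ × ℕ), G = fun c => J.filter (fun p => p.1 = c) := ⟨_, rfl⟩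
    have hmaps : ∀ p ∈ J, p.1 ∈ range s := by
      intro p hp
      rw [hJ, mem_filter] at hp
      rw [mem_range]
      have := (hl2 _ hp.1).1
      omega
    have hgx : ∑ c ∈ range s, ∑ p ∈ G c, x p = ∑ p ∈ J, x p := by
      rw [hG]
      exact sum_fiberwise_of_maps_to hmaps x
    have hgn : ∑ c ∈ range s, ∑ p ∈ G c, (F p.1).card ≤ M := by
      rw [hG]
      rw [sum_fiberwise_of_maps_to hmaps (fun p => (F p.1).card), ← hMsum, hJ]
      exact sum_le_sum_of_subset (filter_subset _ _)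
    have hgc : ∀ c, ∑ p ∈ G c, (F p.1).card = (G c).card * (F c).card := by
      intro c
      rw [sum_congr rfl (g := fun _ => (F c).card), sum_const, smul_eq_mul]
      intro i hi
      rw [hG] at hi
      rw [(mem_filter.1 hi).2]
    obtain ⟨c, hc, hc1, hc2⟩ : ∃ c ∈ range s, (G c).card * (F c).card ≤ 4 * K * ∑ p ∈ G c, x p ∧
        M ≤ 2 * K * s * ∑ p ∈ G c, x p := by
      by_contra hno
      push Not at hno
      have h3 : ∀ c ∈ range s, 4 * K * s * ∑ p ∈ G c, x p <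
          s * ∑ p ∈ G c, (F p.1).card + 2 * M := by
        intro c hc
        rcases Nat.lt_or_ge (4 * K * ∑ p ∈ G c, x p) ((G c).card * (F c).card) with h4 | h4
        · have h5 : s * (4 * K * ∑ p ∈ G c, x p) < s * ((G c).card * (F c).card) :=
            Nat.mul_lt_mul_of_pos_left h4 (by omega)
          rw [hgc]
          calc 4 * K * s * ∑ p ∈ G c, x p = s * (4 * K * ∑ p ∈ G c, x p) := by ring
            _ < s * ((G c).card * (F c).card) := h5
            _ ≤ _ := Nat.le_add_right _ _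
        · have h5 := hno c hc h4
          calc 4 * K * s * ∑ p ∈ G c, x p = 2 * (2 * K * s * ∑ p ∈ G c, x p) := by ring
            _ < 2 * M := by omega
            _ ≤ _ := Nat.le_add_left _ _
      have h4 := sum_lt_sum_of_nonempty (s := range s) ⟨0, mem_range.2 (by omega)⟩ h3
      rw [sum_add_distrib, ← mul_sum, ← mul_sum, hgx, sum_const, card_range, smul_eq_mul] at h4
      have h5 : 4 * K * s * ∑ p ∈ J, x p < 3 * (s * M) := by
        have := Nat.mul_le_mul_left s hgn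
        calc 4 * K * s * ∑ p ∈ J, x p < s * ∑ c ∈ range s, ∑ p ∈ G c, (F p.1).card +
              s * (2 * M) := h4
          _ ≤ s * M + s * (2 * M) := by omega
          _ = 3 * (s * M) := by ring
      have h6 : s * (4 * K * ∑ p ∈ J, x p) < s * (3 * M) := by
        calc s * (4 * K * ∑ p ∈ J, x p) = 4 * K * s * ∑ p ∈ J, x p := by ring
          _ < 3 * (s * M) := h5
          _ = s * (3 * M) := by ring
      have h7 : 4 * K * ∑ p ∈ J, x p < 3 * M := Nat.lt_of_mul_lt_mul_left h6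
      have h8 : 4 * K * ∑ p ∈ J', x p ≤ M := (Nat.mul_le_mul_left _ hJ's).trans htiny
      have h9 : 4 * M ≤ 4 * K * ∑ p ∈ J, x p + 4 * K * ∑ p ∈ J', x p := by
        calc 4 * M ≤ 4 * (K * (∑ p ∈ J, x p + ∑ p ∈ J', x p)) := Nat.mul_le_mul_left _ hJ1
          _ = _ := by ring
      omega
    have hcs : c < s := mem_range.1 hc
    have hGmem : ∀ p ∈ G c, p ∈ D ∧ b ≤ (F c).card ∧ p.1 = c := by
      intro i hi
      rw [hG] at hi
      have h3 := mem_filter.1 hi
      have h4 := h3.1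
      rw [hJ, mem_filter] at h4
      refine ⟨h4.1, ?_, h3.2⟩
      rw [← h3.2]
      exact h4.2
    have hxB : ∀ p ∈ G c, x p ≤ B := fun p hp => (hxn p).trans (hl2 _ (hGmem p hp).1).2
    have hn : 32 * K ^ 2 ≤ (G c).card := by
      by_contra hlt
      push Not at hlt
      have h3 := sum_le_card_nsmul (G c) x B hxB
      rw [smul_eq_mul] at h3
      have h4 : M ≤ 64 * K ^ 3 * s * B := by
        calc M ≤ 2 * K * s * ∑ p ∈ G c, x p := hc2
          _ ≤ 2 * K * s * (32 * K ^ 2 * B) :=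
            Nat.mul_le_mul_left _ (h3.trans (Nat.mul_le_mul_right _ hlt.le))
          _ = _ := by ring
      omega
    have hK2 : 1 ≤ K ^ 2 := Nat.one_le_pow _ _ hK
    have hne : (G c).Nonempty := by
      rw [← card_pos]
      omega
    obtain ⟨i0, hi0⟩ := hne
    have hbc := (hGmem i0 hi0).2.1
    obtain ⟨p, hp, q, hq, hpq, hlarge⟩ := two_sets (G c) (F c) (fun p => part F X p)
      (fun p hp => by
        have := part_subset F X p
        rwa [(hGmem p hp).2.2] at this) hK (by omega) hn (by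
        have h3 := hc1
        rw [hx] at h3
        exact h3)
    have h3 := ih (32 * K ^ 2) c (by omega) hcs (part F X p ∩ part F X q) (by
        have h4 := part_subset F X p
        rw [(hGmem p hp).2.2] at h4
        exact inter_subset_left.trans h4) hlarge (by
        intro n
        obtain ⟨n', hn'⟩ := two_parts (X := X) hD (hGmem p hp).1 (hGmem q hq).1 hpq n
        have h4 := h2 n'
        have h5 : 2 ^ (t + 1 + 1) = 2 * 2 ^ (t + 1) := by ring
        omega)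
    omega

/-- **Dense subsets of cheap sets.** -/
theorem robust_built {s t K : ℕ} {S X : Finset ℕ} (hS : Built s S) (hK : 1 ≤ K) (hX : X ⊆ S)
    (h1 : S.card ≤ K * X.card) (h2 : ∀ n, rf X n < 2 ^ (t + 1)) :
    S.card ≤ (40 * s) ^ (2 * t) * (32 * K) ^ (5 * 2 ^ t) := by
  obtain ⟨F, hF, i, hi, rfl⟩ := hS
  have h3 := robust hF t K i hK hi X hX h1 h2
  have h4 := fb_le (s := s) (by omega) t K hK
  have h5 : 1 ≤ (32 * K) ^ 4 := Nat.one_le_pow _ _ (by omega)
  exact h3.trans ((Nat.le_mul_of_pos_left _ h5).trans h4)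

end Pool.Agent.Helper42.GP
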