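import Mathlib

/-!
# Sets built from few translates: definitions
-/

set_option autoImplicit false

open Finset Filter

namespace Pool.Agent.Helper42.GP

/-- The sets `F 0, ..., F (s - 1)` are built one after the other: each of them has at most one element,
or it is the union of disjoint translates of two earlier ones. -/
def Program (s : ℕ) (F : ℕ → Finset ℕ) : Prop :=
  ∀ i < s, (F i).card ≤ 1 ∨ ∃ j < i, ∃ k < i, ∃ u v : ℕ,
    Disjoint ((F j).image (fun a => a + u)) ((F k).image (fun a => a + v)) ∧
      F i = (F j).image (fun a => a + u) ∪ (F k).image (fun a => a + v)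

/-- the finite set `S` can be built in `s` steps -/
def Built (s : ℕ) (S : Finset ℕ) : Prop := ∃ F : ℕ → Finset ℕ, Program s F ∧ ∃ i < s, F i = S

/-- the least number of steps in which `S` can be built -/
noncomputable def cost (S : Finset ℕ) : ℕ := sInf {s | Built s S}

open Classical in
/-- `M ∩ [0, N)` -/
noncomputable def seg (M : Set ℕ) (N : ℕ) : Finset ℕ := (range N).filter (fun a => a ∈ M)

/-- the number of the elements of `A` in the finite set `S` -/
noncomputable def hits (A : Set ℕ) (S : Finset ℕ) : ℕ := (A ∩ (S : Set ℕ)).ncard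

/-- For some `C` and all large `N` there is a finite set `S` of cost at most `φ(N) ^ C` such that the
number of the elements of `A` in `S` is at least `|S| / φ(N) ^ C` and at least
`|A ∩ [0, N)| / φ(N) ^ C`. -/
def Hosted (φ : ℕ → ℝ) (A : Set ℕ) : Prop :=
  ∃ C : ℕ, ∀ᶠ N : ℕ in atTop, ∃ S : Finset ℕ, (cost S : ℝ) ≤ φ N ^ C ∧
    (S.card : ℝ) ≤ φ N ^ C * hits A S ∧ ((A ∩ Set.Iio N).ncard : ℝ) ≤ φ N ^ C * hits A S

end Pool.Agent.Helper42.GP
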