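import Pool.Agent.Helper42.GP.Dec

/-!
# The exact inequality for the sets of a program
-/

set_option autoImplicit false

open Finset

namespace Pool.Agent.Helper42.GP

open Pool.Agent.Helper42.GC (rf)

/-- heavy steps -/
def Heavy (F : ℕ → Finset ℕ) (t m : ℕ) : Prop := ∃ n, 2 ^ (t + 1) ≤ rf (F m) n

lemma not_heavy_small {F : ℕ → Finset ℕ} {t m : ℕ} (h : (F m).card ≤ 1) : ¬ Heavy F t m := by
  rintro ⟨n, hn⟩
  have h1 : rf (F m) n ≤ 1 := by
    unfold rf
    refine (card_filter_le _ _).trans ?_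
    rw [card_product]
    calc (F m).card * (F m).card ≤ 1 * 1 := Nat.mul_le_mul h h
      _ = 1 := rfl
  have h2 : 2 ≤ 2 ^ (t + 1) := by
    calc 2 = 2 ^ 1 := by norm_num
      _ ≤ 2 ^ (t + 1) := Nat.pow_le_pow_right (by norm_num) (by omega)
  omega

lemma Dec.subset {F : ℕ → Finset ℕ} {S : Finset ℕ} {D : Finset (ℕ × ℕ)} (h : Dec F S D)
    {p : ℕ × ℕ} (hp : p ∈ D) : tr (F p.1) p.2 ⊆ S := fun a ha => (h.eq a).2 ⟨p, hp, ha⟩

/-- heavy sets occur only once -/
lemma once {F : ℕ → Finset ℕ} {S : Finset ℕ} {D : Finset (ℕ × ℕ)} (h : Dec F S D) {t m : ℕ}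
    (hR : ∀ n, rf S n < 2 ^ (t + 2)) (hm : Heavy F t m) {p q : ℕ × ℕ} (hp : p ∈ D) (hq : q ∈ D)
    (hp1 : p.1 = m) (hq1 : q.1 = m) : p = q := by
  by_contra hpq
  obtain ⟨n, hn⟩ := hm
  have h1 := h.dis p hp q hq hpq
  have h2 := h.subset hp
  have h3 := h.subset hq
  rw [hp1] at h1 h2
  rw [hq1] at h1 h3
  have h4 := two_rf h2 h3 h1 n
  have h5 := hR (n + (p.2 + q.2))
  have h6 : 2 ^ (t + 2) = 2 * 2 ^ (t + 1) := by ring
  omega

/-- replace a translate by the two translates of which it consists -/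
lemma Dec.replace {F : ℕ → Finset ℕ} {S : Finset ℕ} {D : Finset (ℕ × ℕ)} (h : Dec F S D)
    {p : ℕ × ℕ} (hp : p ∈ D) {j k u v : ℕ} (hd : Disjoint (tr (F j) u) (tr (F k) v))
    (he : F p.1 = tr (F j) u ∪ tr (F k) v) :
    ∃ D', Dec F S D' ∧ (∀ q ∈ D', q ∈ D.erase p ∨ q.1 = j ∨ q.1 = k) ∧ D'.card ≤ D.card + 1 := by
  classical
  obtain ⟨E, hE⟩ : ∃ E : Finset (ℕ × ℕ),
      E = ({(j, u + p.2), (k, v + p.2)} : Finset (ℕ × ℕ)).filter (fun q => (F q.1).Nonempty) :=
    ⟨_, rfl⟩
  have hEm : ∀ q ∈ E, (q = (j, u + p.2) ∨ q = (k, v + p.2)) ∧ (F q.1).Nonempty := by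
    intro q hq
    rw [hE, mem_filter, mem_insert, mem_singleton] at hq
    exact hq
  have e1 : tr (F p.1) p.2 = tr (F j) (u + p.2) ∪ tr (F k) (v + p.2) := by
    rw [he, tr_union, tr_tr, tr_tr]
  have hd2 : Disjoint (tr (F j) (u + p.2)) (tr (F k) (v + p.2)) := by
    rw [← tr_tr, ← tr_tr]
    exact tr_disjoint hd _
  have hEs : ∀ q ∈ E, tr (F q.1) q.2 ⊆ tr (F p.1) p.2 := by
    intro q hq
    rw [e1]
    rcases (hEm q hq).1 with rfl | rfl
    · exact subset_union_left
    · exact subset_union_right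
  refine ⟨D.erase p ∪ E, ⟨?_, ?_, ?_⟩, ?_, ?_⟩
  · intro q hq
    rcases mem_union.1 hq with hq | hq
    · exact h.ne q (mem_of_mem_erase hq)
    · exact (hEm q hq).2
  · have key : ∀ q ∈ D.erase p, ∀ r ∈ E, Disjoint (tr (F q.1) q.2) (tr (F r.1) r.2) := by
      intro q hq r hr
      exact disjoint_of_subset_right (hEs r hr)
        (h.dis q (mem_of_mem_erase hq) p hp (ne_of_mem_erase hq))
    intro q hq r hr hqr
    rcases mem_union.1 hq with hq | hq
    · rcases mem_union.1 hr with hr | hr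
      · exact h.dis q (mem_of_mem_erase hq) r (mem_of_mem_erase hr) hqr
      · exact key q hq r hr
    · rcases mem_union.1 hr with hr | hr
      · exact (key r hr q hq).symm
      · rcases (hEm q hq).1 with rfl | rfl
        · rcases (hEm r hr).1 with rfl | rfl
          · exact absurd rfl hqr
          · exact hd2
        · rcases (hEm r hr).1 with rfl | rfl
          · exact hd2.symm
          · exact absurd rfl hqr
  · intro a
    rw [h.eq]
    constructor
    · rintro ⟨q, hq, ha⟩
      by_cases hqp : q = p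
      · subst hqp
        rw [e1, mem_union] at ha
        rcases ha with ha | ha
        · refine ⟨(j, u + q.2), mem_union_right _ ?_, ha⟩
          rw [hE, mem_filter]
          refine ⟨by simp, ?_⟩
          obtain ⟨b, hb, _⟩ := mem_tr.1 ha
          exact ⟨b, hb⟩
        · refine ⟨(k, v + q.2), mem_union_right _ ?_, ha⟩
          rw [hE, mem_filter]
          refine ⟨by simp, ?_⟩
          obtain ⟨b, hb, _⟩ := mem_tr.1 ha
          exact ⟨b, hb⟩
      · exact ⟨q, mem_union_left _ (mem_erase.2 ⟨hqp, hq⟩), ha⟩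
    · rintro ⟨q, hq, ha⟩
      rcases mem_union.1 hq with hq | hq
      · exact ⟨q, mem_of_mem_erase hq, ha⟩
      · exact ⟨p, hp, hEs q hq ha⟩
  · intro q hq
    rcases mem_union.1 hq with hq | hq
    · exact Or.inl hq
    · rcases (hEm q hq).1 with rfl | rfl
      · exact Or.inr (Or.inl rfl)
      · exact Or.inr (Or.inr rfl)
  · have h1 : E.card ≤ 2 := by
      rw [hE]
      refine (card_filter_le _ _).trans ?_
      exact card_le_two
    have h2 := card_erase_of_mem hp
    have h3 : 1 ≤ D.card := card_pos.2 ⟨p, hp⟩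
    have h4 := card_union_le (D.erase p) E
    omega

lemma unfold_heavy {s : ℕ} {F : ℕ → Finset ℕ} (hF : Program s F) {t i : ℕ} (hi : i < s)
    (hR : ∀ n, rf (F i) n < 2 ^ (t + 2)) :
    ∀ d, d ≤ i → ∃ D, Dec F (F i) D ∧ (∀ p ∈ D, p.1 ≤ i) ∧
      (∀ p ∈ D, Heavy F t p.1 → p.1 ≤ i - d) ∧ D.card ≤ 1 + d := by
  intro d
  induction d with
  | zero =>
    intro _
    rcases (F i).eq_empty_or_nonempty with h0 | h0
    · refine ⟨∅, ?_, by simp, by simp, by simp⟩
      rw [h0]
      exact Dec.empty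
    · exact ⟨{(i, 0)}, Dec.single h0, by simp, by simp, by simp⟩
  | succ d ih =>
    intro hd
    obtain ⟨D, h1, h2, h3, h4⟩ := ih (by omega)
    obtain ⟨m, hm⟩ : ∃ m, m = i - d := ⟨_, rfl⟩
    by_cases hml : ∃ p ∈ D, p.1 = m ∧ Heavy F t m
    · obtain ⟨p, hp, hpm, hheavy⟩ := hml
      rcases hF m (by omega) with h0 | ⟨j, hj, k, hk, u, v, hd2, hjk⟩
      · exact absurd hheavy (not_heavy_small h0)
      · obtain ⟨D', g1, g2, g3⟩ := h1.replace hp (j := j) (k := k) (u := u) (v := v) hd2
          (by rw [hpm]; exact hjk)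
        refine ⟨D', g1, ?_, ?_, by omega⟩
        · intro q hq
          rcases g2 q hq with h | h | h
          · exact h2 q (mem_of_mem_erase h)
          · omega
          · omega
        · intro q hq hqh
          rcases g2 q hq with h | h | h
          · have h5 := h3 q (mem_of_mem_erase h) hqh
            have h6 : q.1 ≠ m := by
              intro h7
              exact ne_of_mem_erase h (once h1 hR hheavy (mem_of_mem_erase h) hp h7 hpm)
            omega
          · omega
          · omega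
    · refine ⟨D, h1, h2, ?_, by omega⟩
      intro p hp hph
      have h5 := h3 p hp hph
      have h6 : p.1 ≠ m := by
        intro h7
        exact hml ⟨p, hp, h7, h7 ▸ hph⟩
      omega

/-- **The exact inequality.** -/
theorem main {s : ℕ} {F : ℕ → Finset ℕ} (hF : Program s F) : ∀ t i : ℕ, i < s →
    (∀ n, rf (F i) n < 2 ^ (t + 1)) → (F i).card ≤ (i + 1) ^ t := by
  intro t
  induction t with
  | zero =>
    intro i _ h
    rw [pow_zero]
    exact card_le_one_of_rf fun n => by simpa using h n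
  | succ t ih =>
    intro i hi h
    obtain ⟨D, h1, h2, h3, h4⟩ := unfold_heavy hF hi h i le_rfl
    have hlight : ∀ p ∈ D, ¬ Heavy F t p.1 := by
      intro p hp hph
      have h5 := h3 p hp hph
      have h6 : p.1 = 0 := by omega
      rw [h6] at hph
      rcases hF 0 (by omega) with h0 | ⟨j, hj, _⟩
      · exact not_heavy_small h0 hph
      · omega
    have h5 : ∀ p ∈ D, (F p.1).card ≤ (i + 1) ^ t := by
      intro p hp
      have h6 := h2 p hp
      have h7 : ∀ n, rf (F p.1) n < 2 ^ (t + 1) := by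
        intro n
        by_contra hcon
        exact hlight p hp ⟨n, not_lt.1 hcon⟩
      exact (ih p.1 (by omega) h7).trans (Nat.pow_le_pow_left (by omega) t)
    have h6 := sum_le_card_nsmul D (fun p => (F p.1).card) _ h5
    rw [h1.card, smul_eq_mul] at h6
    refine h6.trans ?_
    rw [pow_succ, mul_comm]
    exact Nat.mul_le_mul_left _ (by omega)

theorem built_bound {s t : ℕ} {S : Finset ℕ} (hS : Built s S) (h : ∀ n, rf S n < 2 ^ (t + 1)) :
    S.card ≤ s ^ t := by
  obtain ⟨F, hF, i, hi, rfl⟩ := hS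
  exact (main hF t i hi h).trans (Nat.pow_le_pow_left (by omega) t)

end Pool.Agent.Helper42.GP
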