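import Pool.Agent.Helper42.GP.Cost

/-!
# Prefixes of words given by a grammar
-/

set_option autoImplicit false

open Finset

namespace Pool.Agent.Helper42.GP

open Pool.Agent.Helper42.GC (rf Gen Valid ones mem_ones lt_of_mem_ones gram gram_spec pre
  mem_ones_pre)

/-- the sets with the property `P` occur in a program of `s` steps -/
def PSys (s : ℕ) (P : Finset ℕ → Prop) : Prop :=
  ∃ F : ℕ → Finset ℕ, Program s F ∧ ∀ S, P S → ∃ i < s, F i = S

lemma PSys.mono {s s' : ℕ} {P P' : Finset ℕ → Prop} (h : PSys s P) (hs : s ≤ s')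
    (hP : ∀ S, P' S → P S) : PSys s' P' := by
  obtain ⟨F, hF, hS⟩ := h
  refine ⟨fun i => if i < s then F i else ∅, ?_, ?_⟩
  · intro i hi
    by_cases h1 : i < s
    · rcases hF i h1 with h2 | ⟨j, hj, k, hk, x, y, h3, h4⟩
      · left
        simp only
        rw [if_pos h1]
        exact h2
      · refine Or.inr ⟨j, hj, k, hk, x, y, ?_, ?_⟩
        · simp only
          rw [if_pos (by omega), if_pos (by omega)]
          exact h3
        · simp only
          rw [if_pos h1, if_pos (by omega), if_pos (by omega)]
          exact h4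
    · left
      simp only
      rw [if_neg h1]
      simp
  · intro S hS'
    obtain ⟨i, hi, h1⟩ := hS S (hP S hS')
    exact ⟨i, by omega, by simp only; rw [if_pos hi]; exact h1⟩

lemma PSys.step {s : ℕ} {P : Finset ℕ → Prop} (h : PSys s P) {Z : Finset ℕ}
    (hZ : Z.card ≤ 1 ∨ ∃ S T : Finset ℕ, ∃ u v : ℕ, P S ∧ P T ∧ Disjoint (tr S u) (tr T v) ∧
      Z = tr S u ∪ tr T v) : PSys (s + 1) (fun X => P X ∨ X = Z) := by
  obtain ⟨F, hF, hS⟩ := h
  refine ⟨fun i => if i < s then F i else Z, ?_, ?_⟩
  · intro i hi
    by_cases h1 : i < s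
    · rcases hF i h1 with h2 | ⟨j, hj, k, hk, x, y, h3, h4⟩
      · left
        simp only
        rw [if_pos h1]
        exact h2
      · refine Or.inr ⟨j, hj, k, hk, x, y, ?_, ?_⟩
        · simp only
          rw [if_pos (by omega), if_pos (by omega)]
          exact h3
        · simp only
          rw [if_pos h1, if_pos (by omega), if_pos (by omega)]
          exact h4
    · rcases hZ with h2 | ⟨S, T, u, v, h2, h3, h4, h5⟩
      · left
        simp only
        rw [if_neg h1]
        exact h2
      · obtain ⟨j, hj, rfl⟩ := hS S h2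
        obtain ⟨k, hk, rfl⟩ := hS T h3
        refine Or.inr ⟨j, by omega, k, by omega, u, v, ?_, ?_⟩
        · simp only
          rw [if_pos hj, if_pos hk]
          exact h4
        · simp only
          rw [if_neg h1, if_pos hj, if_pos hk]
          exact h5
  · rintro S (h1 | rfl)
    · obtain ⟨i, hi, h2⟩ := hS S h1
      exact ⟨i, by omega, by simp only; rw [if_pos hi]; exact h2⟩
    · exact ⟨s, by omega, by simp⟩

lemma ones_append (x y : List Bool) : ones (x ++ y) = tr (ones x) 0 ∪ tr (ones y) x.length := by
  ext a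
  rw [mem_union, mem_tr, mem_tr, mem_ones]
  constructor
  · intro ha
    rcases Nat.lt_or_ge a x.length with h1 | h1
    · left
      rw [List.getElem?_append_left h1] at ha
      exact ⟨a, mem_ones.2 ha, by omega⟩
    · right
      rw [List.getElem?_append_right h1] at ha
      exact ⟨a - x.length, mem_ones.2 ha, by omega⟩
  · rintro (⟨b, hb, rfl⟩ | ⟨b, hb, rfl⟩)
    · rw [add_zero, List.getElem?_append_left (lt_of_mem_ones hb)]
      exact mem_ones.1 hb
    · rw [List.getElem?_append_right (by omega), Nat.add_sub_cancel]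
      exact mem_ones.1 hb

lemma ones_disjoint (x y : List Bool) : Disjoint (tr (ones x) 0) (tr (ones y) x.length) := by
  rw [disjoint_left]
  intro a ha hb
  obtain ⟨c, hc, rfl⟩ := mem_tr.1 ha
  obtain ⟨d, hd, h⟩ := mem_tr.1 hb
  have := lt_of_mem_ones hc
  omega

lemma ones_short {w : List Bool} (h : w.length ≤ 1) : (ones w).card ≤ 1 := by
  have h1 : ones w ⊆ {0} := by
    intro a ha
    have := lt_of_mem_ones ha
    rw [mem_singleton]
    omega
  exact (card_le_card h1).trans (by simp)

theorem psys_take {s : ℕ} {F : ℕ → List Bool} (hF : Valid s F) : ∀ i, i < s → ∀ l : ℕ,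
    PSys (s + (i + 1)) (fun X => (∃ j < s, X = ones (F j)) ∨ X = ones ((F i).take l)) := by
  have h0 : PSys s (fun X => ∃ j < s, X = ones (F j)) := by
    refine ⟨fun i => ones (F i), ?_, ?_⟩
    · intro i hi
      rcases hF i hi with ⟨c, hc⟩ | ⟨j, hj, k, hk, hjk⟩
      · left
        simp only
        rw [hc]
        exact ones_short (by simp)
      · refine Or.inr ⟨j, hj, k, hk, 0, (F j).length, ones_disjoint _ _, ?_⟩
        simp only
        rw [hjk]
        exact ones_append _ _
    · rintro S ⟨j, hj, rfl⟩
      exact ⟨j, hj, rfl⟩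
  intro i
  induction i using Nat.strong_induction_on with
  | _ i ih =>
    intro hi l
    rcases hF i hi with ⟨c, hc⟩ | ⟨j, hj, k, hk, hjk⟩
    · refine (h0.step (Z := ones ((F i).take l)) (Or.inl (ones_short ?_))).mono (by omega)
        (fun S hS => hS)
      rw [hc, List.length_take]
      simp
    · rcases Nat.lt_or_ge (F j).length l with h1 | h1
      · have h2 : (F i).take l = F j ++ (F k).take (l - (F j).length) := by
          rw [hjk, List.take_append, List.take_of_length_le h1.le]
        have h3 := (ih k hk (by omega) (l - (F j).length)).step (Z := ones ((F i).take l))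
          (Or.inr ⟨ones (F j), ones ((F k).take (l - (F j).length)), 0, (F j).length,
            Or.inl ⟨j, by omega, rfl⟩, Or.inr rfl, ones_disjoint _ _, by
              rw [h2]
              exact ones_append _ _⟩)
        refine h3.mono (by omega) ?_
        rintro S (hS | hS)
        · exact Or.inl (Or.inl hS)
        · exact Or.inr hS
      · have h2 : (F i).take l = (F j).take l := by
          rw [hjk, List.take_append_of_le_length h1]
        rw [h2]
        exact (ih j hj (by omega) l).mono (by omega) (fun S hS => hS)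

lemma mem_seg {M : Set ℕ} {N a : ℕ} : a ∈ seg M N ↔ a < N ∧ a ∈ M := by
  classical
  unfold seg
  rw [mem_filter, mem_range]

/-- the cost is at most twice the grammar complexity -/
theorem cost_seg (M : Set ℕ) (N : ℕ) : cost (seg M N) ≤ 2 * gram M N := by
  obtain ⟨n, hn, F, hF, i, hi, hw⟩ := gram_spec M N
  obtain ⟨s, hs⟩ : ∃ s, s = gram M N := ⟨_, rfl⟩
  rw [← hs] at hF hi ⊢
  obtain ⟨G, hG, hP⟩ := psys_take hF i hi N
  obtain ⟨j, hj, h1⟩ := hP _ (Or.inr rfl)
  have h2 : seg M N = ones ((F i).take N) := by
    ext a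
    rw [mem_seg, mem_ones, hw]
    rcases Nat.lt_or_ge a N with h | h
    · rw [List.getElem?_take_of_lt h, ← mem_ones, mem_ones_pre]
      exact ⟨fun h3 => ⟨by omega, h3.2⟩, fun h3 => ⟨h, h3.2⟩⟩
    · rw [List.getElem?_eq_none ((List.length_take_le _ _).trans h)]
      simp
      omega
  have h3 : Built (s + (i + 1)) (seg M N) := ⟨G, hG, j, hj, h1.trans h2.symm⟩
  exact h3.le.trans (by omega)

end Pool.Agent.Helper42.GP
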