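import Pool.Agent.Helper42.GP.Pre
import Pool.Agent.Helper42.GC.Fin

/-!
# Thresholds for sets with many elements in cheap sets
-/

set_option autoImplicit false

open Finset Filter

namespace Pool.Agent.Helper42.GP

open Pool.Agent.Helper42.GC
open Pool.Agent.Helper76.FX

lemma rf_le {A : Set ℕ} {X : Finset ℕ} (hX : (X : Set ℕ) ⊆ A) (m : ℕ) : rf X m ≤ rep A m := by
  classical
  unfold rf rep
  rw [← Set.ncard_coe_finset]
  refine Set.ncard_le_ncard ?_ (rep_finite A m)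
  intro p hp
  rw [mem_coe, mem_filter, mem_product] at hp
  exact ⟨hX (mem_coe.2 hp.1.1), hX (mem_coe.2 hp.1.2), hp.2⟩

theorem exact_ineq {A : Set ℕ} {t : ℕ} (h : ∀ n, rep A n < 2 ^ (t + 1)) {S : Finset ℕ}
    (hS : (S : Set ℕ) ⊆ A) : S.card ≤ cost S ^ t :=
  built_bound (built_cost S) fun n => lt_of_le_of_lt (rf_le hS n) (h n)

lemma cost_pos (S : Finset ℕ) : 1 ≤ cost S := by
  obtain ⟨F, _, i, hi, _⟩ := built_cost S
  omega

/-- **The power saving.** -/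
theorem power {A : Set ℕ} {t : ℕ} (h : ∀ n, rep A n < 2 ^ (t + 1)) (S : Finset ℕ) :
    hits A S ^ (5 * 2 ^ t) ≤
      64 ^ (5 * 2 ^ t) * (40 * cost S) ^ (2 * t) * S.card ^ (5 * 2 ^ t - 1) := by
  classical
  obtain ⟨X, hX⟩ : ∃ X, X = S.filter (fun a => a ∈ A) := ⟨_, rfl⟩
  obtain ⟨q, hq⟩ : ∃ q, q = 5 * 2 ^ t := ⟨_, rfl⟩
  have hq1 : 1 ≤ q := by
    rw [hq]
    have := Nat.one_le_two_pow (n := t)
    omega
  rw [← hq]
  have h1 : hits A S = X.card := by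
    unfold hits
    rw [← Set.ncard_coe_finset]
    congr 1
    ext a
    rw [hX, mem_coe, mem_filter]
    exact ⟨fun h => ⟨h.2, h.1⟩, fun h => ⟨h.2, h.1⟩⟩
  rw [h1]
  rcases Nat.eq_zero_or_pos X.card with h0 | h0
  · rw [h0, zero_pow (by omega)]
    exact Nat.zero_le _
  · have hXS : X ⊆ S := by rw [hX]; exact filter_subset _ _
    obtain ⟨K, hK⟩ : ∃ K, K = S.card / X.card + 1 := ⟨_, rfl⟩
    have hK1 : S.card ≤ K * X.card := by
      have h2 := Nat.lt_mul_div_succ S.card h0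
      rw [hK, mul_comm]
      exact h2.le
    have hK2 : K * X.card ≤ 2 * S.card := by
      have h2 := Nat.div_mul_le_self S.card X.card
      have h3 := card_le_card hXS
      rw [hK, add_mul, one_mul]
      omega
    have h2 := robust_built (built_cost S) (K := K) (by rw [hK]; exact Nat.succ_pos _) hXS hK1 (t := t) fun n =>
      lt_of_le_of_lt (rf_le (A := A) (by
        intro a ha
        rw [hX, mem_coe, mem_filter] at ha
        exact ha.2) n) (h n)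
    rw [← hq] at h2
    have hS0 : 0 < S.card := lt_of_lt_of_le h0 (card_le_card hXS)
    obtain ⟨c, hc⟩ : ∃ c, c = (40 * cost S) ^ (2 * t) := ⟨_, rfl⟩
    rw [← hc] at h2 ⊢
    have h3 : X.card ^ q * S.card ≤ 64 ^ q * c * S.card ^ (q - 1) * S.card := by
      calc X.card ^ q * S.card ≤ X.card ^ q * (c * (32 * K) ^ q) := Nat.mul_le_mul_left _ h2
        _ = c * (32 * (K * X.card)) ^ q := by
          rw [mul_pow, mul_pow, mul_pow]
          ring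
        _ ≤ c * (32 * (2 * S.card)) ^ q :=
          Nat.mul_le_mul_left _ (Nat.pow_le_pow_left (Nat.mul_le_mul_left _ hK2) q)
        _ = 64 ^ q * c * S.card ^ q := by
          rw [← mul_assoc 32 2, mul_pow]
          ring
        _ = 64 ^ q * c * S.card ^ (q - 1) * S.card := by
          rw [mul_assoc (64 ^ q * c), ← pow_succ]
          congr 2
          omega
    exact Nat.le_of_mul_le_mul_right h3 hS0

/-- `S`-adic and morphic sets are cheap -/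
theorem adic_cost {M : Set ℕ} (hM : IsAdic M) :
    ∃ C : ℝ, ∀ᶠ N : ℕ in atTop, (cost (seg M N) : ℝ) ≤ C * Real.log N := by
  obtain ⟨C, hC⟩ := hM.logG
  refine ⟨2 * C, ?_⟩
  filter_upwards [hC] with N h1
  have h2 : (cost (seg M N) : ℝ) ≤ 2 * gram M N := by exact_mod_cast cost_seg M N
  linarith

/-- few elements in `S`-adic and morphic sets -/
theorem adic_power {A : Set ℕ} {t : ℕ} (h : ∀ n, rep A n < 2 ^ (t + 1)) {M : Set ℕ}
    (hM : IsAdic M) : ∃ C : ℝ, ∀ᶠ N : ℕ in atTop, (hits A (seg M N) : ℝ) ^ (5 * 2 ^ t) ≤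
      C * Real.log N ^ (2 * t) * ((seg M N).card : ℝ) ^ (5 * 2 ^ t - 1) := by
  obtain ⟨C, hC⟩ := adic_cost hM
  refine ⟨64 ^ (5 * 2 ^ t) * (40 * C) ^ (2 * t), ?_⟩
  filter_upwards [hC] with N h1
  have h2 : (hits A (seg M N) : ℝ) ^ (5 * 2 ^ t) ≤ 64 ^ (5 * 2 ^ t) *
      (40 * (cost (seg M N) : ℝ)) ^ (2 * t) * ((seg M N).card : ℝ) ^ (5 * 2 ^ t - 1) := by
    exact_mod_cast power h (seg M N)
  refine h2.trans ?_
  have h3 : (40 * (cost (seg M N) : ℝ)) ^ (2 * t) ≤ (40 * C) ^ (2 * t) * Real.log N ^ (2 * t) := by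
    rw [← mul_pow]
    refine pow_le_pow_left₀ (by positivity) ?_ _
    rw [mul_assoc]
    exact mul_le_mul_of_nonneg_left h1 (by norm_num)
  calc 64 ^ (5 * 2 ^ t) * (40 * (cost (seg M N) : ℝ)) ^ (2 * t) *
        ((seg M N).card : ℝ) ^ (5 * 2 ^ t - 1)
      ≤ 64 ^ (5 * 2 ^ t) * ((40 * C) ^ (2 * t) * Real.log N ^ (2 * t)) *
        ((seg M N).card : ℝ) ^ (5 * 2 ^ t - 1) := by gcongr
    _ = _ := by ring

/-- few elements in cheap sets -/
theorem hit_bound {A : Set ℕ} {t : ℕ} (h : ∀ n, rep A n < 2 ^ (t + 1)) {S : Finset ℕ} {y : ℝ}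
    (hy : 1 ≤ y) (h1 : (cost S : ℝ) ≤ y) (h2 : (S.card : ℝ) ≤ y * hits A S) :
    (hits A S : ℝ) ≤ 64 ^ (5 * 2 ^ t) * 40 ^ (2 * t) * y ^ (2 * t + (5 * 2 ^ t - 1)) := by
  obtain ⟨q, hq⟩ : ∃ q, q = 5 * 2 ^ t := ⟨_, rfl⟩
  have hq1 : 1 ≤ q := by
    rw [hq]
    have := Nat.one_le_two_pow (n := t)
    omega
  have h3 := power h S
  rw [← hq] at h3 ⊢
  obtain ⟨x, hx⟩ : ∃ x : ℝ, x = hits A S := ⟨_, rfl⟩
  rw [← hx] at h2 ⊢
  have hx0 : 0 ≤ x := by rw [hx]; positivity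
  rcases hx0.eq_or_lt with h0 | h0
  · rw [← h0]
    positivity
  · have h4 : x ^ q ≤ 64 ^ q * (40 * (cost S : ℝ)) ^ (2 * t) * (S.card : ℝ) ^ (q - 1) := by
      rw [hx]
      exact_mod_cast h3
    have h5 : x * x ^ (q - 1) ≤
        64 ^ q * 40 ^ (2 * t) * y ^ (2 * t + (q - 1)) * x ^ (q - 1) := by
      calc x * x ^ (q - 1) = x ^ q := by
            rw [← pow_succ']
            congr 1
            omega
        _ ≤ 64 ^ q * (40 * (cost S : ℝ)) ^ (2 * t) * (S.card : ℝ) ^ (q - 1) := h4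
        _ ≤ 64 ^ q * (40 * y) ^ (2 * t) * (y * x) ^ (q - 1) := by
            gcongr
        _ = 64 ^ q * 40 ^ (2 * t) * y ^ (2 * t + (q - 1)) * x ^ (q - 1) := by
            rw [mul_pow, mul_pow, pow_add]
            ring
    exact le_of_mul_le_mul_right h5 (by positivity)

section
variable {φ : ℕ → ℝ} (hlog : ∀ᶠ N : ℕ in atTop, Real.log N ≤ φ N)
include hlog

theorem hosted_upper {A : Set ℕ} (hA : Hosted φ A) {R : ℕ} (hr : ∀ n, rep A n ≤ R) :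
    ∃ E : ℕ, ∀ᶠ N : ℕ in atTop, ((A ∩ Set.Icc 1 N).ncard : ℝ) ≤ φ N ^ E := by
  obtain ⟨C, hC⟩ := hA
  obtain ⟨t, ht⟩ : ∃ t, t = Nat.log 2 R := ⟨_, rfl⟩
  have hr' : ∀ n, rep A n < 2 ^ (t + 1) := fun n => lt_of_le_of_lt (hr n) (by
    rw [ht]; exact Nat.lt_pow_succ_log_self (by norm_num) R)
  obtain ⟨e, he⟩ : ∃ e, e = 2 * t + (5 * 2 ^ t - 1) := ⟨_, rfl⟩
  obtain ⟨c, hc⟩ : ∃ c : ℝ, c = 64 ^ (5 * 2 ^ t) * 40 ^ (2 * t) := ⟨_, rfl⟩
  refine ⟨C + (1 + C * e) + 1, ?_⟩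
  filter_upwards [hC, (phi_tendsto hlog).eventually_ge_atTop 2,
    (phi_tendsto hlog).eventually_ge_atTop c] with N h1 h2 h2c
  obtain ⟨S, h3, h4, h5⟩ := h1
  have hy : 1 ≤ φ N ^ C := one_le_pow₀ (by linarith)
  have h6 := hit_bound hr' hy h3 h4
  rw [← hc, ← he, ← pow_mul] at h6
  have h7 : ((A ∩ Set.Icc 1 N).ncard : ℝ) ≤ (A ∩ Set.Iio N).ncard + 1 := by
    exact_mod_cast Icc_le A N
  have h8 : (hits A S : ℝ) ≤ φ N ^ (1 + C * e) := by
    refine h6.trans ?_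
    rw [pow_add, pow_one]
    gcongr
  have h9 : ((A ∩ Set.Iio N).ncard : ℝ) ≤ φ N ^ (C + (1 + C * e)) := by
    refine h5.trans ?_
    rw [pow_add (φ N) C]
    gcongr
  have h10 : 1 ≤ φ N ^ (C + (1 + C * e)) := one_le_pow₀ (by linarith)
  calc ((A ∩ Set.Icc 1 N).ncard : ℝ) ≤ 2 * φ N ^ (C + (1 + C * e)) := by linarith
    _ ≤ φ N * φ N ^ (C + (1 + C * e)) := by gcongr
    _ = φ N ^ (C + (1 + C * e) + 1) := by ring

theorem scale_hosted {A : Set ℕ} (hA : Scale φ A) : Hosted φ A := by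
  classical
  obtain ⟨C, hC⟩ := hA
  refine ⟨C, ?_⟩
  filter_upwards [hC, (phi_tendsto hlog).eventually_ge_atTop 1] with N h1 h2
  obtain ⟨n, hn, hg⟩ := gram_spec A N
  have h3 : hits A (ones (pre A n)) = (A ∩ Set.Iio n).ncard := by
    unfold hits
    congr 1
    ext a
    rw [Set.mem_inter_iff, mem_coe, mem_ones_pre]
    exact ⟨fun h => ⟨h.1, h.2.1⟩, fun h => ⟨h.1, h.2, h.1⟩⟩
  have hy : 1 ≤ φ N ^ C := one_le_pow₀ h2
  refine ⟨ones (pre A n), ?_, ?_, ?_⟩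
  · refine le_trans ?_ h1
    exact_mod_cast (built_ones hg).le
  · rw [h3, ← count_eq, count_pre]
    exact le_mul_of_one_le_left (by positivity) hy
  · rw [h3]
    have h4 : (A ∩ Set.Iio N).ncard ≤ (A ∩ Set.Iio n).ncard := by
      refine Set.ncard_le_ncard ?_ ((Set.finite_Iio n).subset Set.inter_subset_right)
      rintro x ⟨h1, h2⟩
      exact ⟨h1, lt_of_lt_of_le h2 hn⟩
    have h5 : ((A ∩ Set.Iio N).ncard : ℝ) ≤ (A ∩ Set.Iio n).ncard := by exact_mod_cast h4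
    refine h5.trans ?_
    exact le_mul_of_one_le_left (by positivity) hy

theorem hosted_forces {𝒞 : Set ℕ → Prop} (h2 : ∀ A, 𝒞 A → Hosted φ A) {g : ℕ → ℝ}
    (h : ∀ C : ℕ, ∃ᶠ N : ℕ in atTop, φ N ^ C < Real.sqrt N / g N) : ForcesIn 𝒞 g := by
  intro A hA hD K
  by_contra hcon
  push Not at hcon
  obtain ⟨E, hup⟩ := hosted_upper hlog (h2 A hA) hcon
  obtain ⟨C', hC', hD⟩ := hD
  obtain ⟨N, h1, h2, h3, h4, h5⟩ := ((h (E + 1)).and_eventually (hup.and (hD.and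
    (((phi_tendsto hlog).eventually_ge_atTop C').and
      ((phi_tendsto hlog).eventually_ge_atTop 1))))).exists
  have h6 : Real.sqrt N / g N ≤ φ N ^ (E + 1) := by
    calc Real.sqrt N / g N ≤ C' * ((A ∩ Set.Icc 1 N).ncard : ℝ) := h3
      _ ≤ φ N * φ N ^ E := mul_le_mul h4 h2 (by positivity) (by linarith)
      _ = φ N ^ (E + 1) := by ring
  linarith

end

/-- **The thresholds.** -/
theorem hosted_thr {φ : ℕ → ℝ} (hmono : Monotone φ) (hlog : ∀ᶠ N : ℕ in atTop, Real.log N ≤ φ N)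
    {c : ℕ} (hsq : ∀ᶠ N : ℕ in atTop, φ (N ^ 2) ≤ φ N ^ c)
    (hsmall : ∀ ε : ℝ, 0 < ε → ∀ᶠ N : ℕ in atTop, φ N ≤ (N : ℝ) ^ ε) {𝒞 : Set ℕ → Prop}
    (h1 : ∀ A, Scale φ A → 𝒞 A) (h2 : ∀ A, 𝒞 A → Hosted φ A) (g : ℕ → ℝ) :
    ForcesIn 𝒞 g ↔ ∀ C : ℕ, ∃ᶠ N : ℕ in atTop, φ N ^ C < Real.sqrt N / g N := by
  constructor
  · intro hF
    exact (clG_thr hmono hlog hsq hsmall g).1 fun A hA => hF A (h1 A hA)
  · exact hosted_forces hlog h2

/-- the thresholds of all classes between the morphic sets and the sets with many elements in sets of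
polylogarithmic cost -/
theorem morphic_thr {𝒞 : Set ℕ → Prop} (h1 : ∀ A, IsMorphic A → 𝒞 A)
    (h2 : ∀ A, 𝒞 A → Hosted (fun N => Real.log N) A) (g : ℕ → ℝ) :
    ForcesIn 𝒞 g ↔ ∀ C : ℕ, ∃ᶠ N : ℕ in atTop, Real.log N ^ C < Real.sqrt N / g N := by
  constructor
  · intro hF C
    have h3 : ForcesIn IsMorphic g := fun A hA => hF A (h1 A hA)
    have h4 := (unions_thr (𝒞 := IsMorphic) (fun A h => h) (fun A h => ⟨1, fun _ => A,
      fun _ => h.adic.logG, (Set.iUnion_const A).symm⟩) g).1 h3 C 1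
    simpa using h4
  · intro h
    exact hosted_forces (Eventually.of_forall fun N => le_rfl) h2 h

/-- **The sets of the question avoid cheap sets.** -/
theorem avoid (t : ℕ) {β : ℝ} (hβ : β < 1 / 2) : ∃ ε : ℝ, 0 < ε ∧ ∀ (A : Set ℕ) (g : ℕ → ℝ),
    (∀ n, rep A n < 2 ^ (t + 1)) → Dense g A →
    (∀ᶠ N : ℕ in atTop, 0 < g N ∧ g N ≤ (N : ℝ) ^ β) → ∀ᶠ N : ℕ in atTop, ∀ S : Finset ℕ,
      (cost S : ℝ) ≤ (N : ℝ) ^ ε → (N : ℝ) ^ ε * hits A S ≤
        max (S.card : ℝ) ((A ∩ Set.Iio N).ncard : ℝ) := by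
  obtain ⟨e, he⟩ : ∃ e, e = 2 * t + (5 * 2 ^ t - 1) := ⟨_, rfl⟩
  obtain ⟨c, hc⟩ : ∃ c : ℝ, c = 64 ^ (5 * 2 ^ t) * 40 ^ (2 * t) := ⟨_, rfl⟩
  have hc1 : 1 ≤ c := by
    rw [hc]
    exact one_le_mul_of_one_le_of_one_le (one_le_pow₀ (by norm_num)) (one_le_pow₀ (by norm_num))
  obtain ⟨δ, hδ⟩ : ∃ δ, δ = 1 / 2 - β := ⟨_, rfl⟩
  have hδ0 : 0 < δ := by rw [hδ]; linarith
  obtain ⟨ε, hε⟩ : ∃ ε : ℝ, ε = δ / (2 * (e + 1)) := ⟨_, rfl⟩
  have hε0 : 0 < ε := by rw [hε]; positivity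
  refine ⟨ε, hε0, ?_⟩
  rintro A g hr ⟨C, hC, hD⟩ hg
  filter_upwards [hD, hg, (tendsto_rpow_nat (half_pos hδ0)).eventually_gt_atTop (C * (2 * c)),
    eventually_ge_atTop 1] with N h1 h2 h3 h4 S h5
  by_contra hcon
  push Not at hcon
  have hN : (1 : ℝ) ≤ N := by exact_mod_cast h4
  have hN0 : (0 : ℝ) < N := by linarith
  obtain ⟨y, hy⟩ : ∃ y : ℝ, y = (N : ℝ) ^ ε := ⟨_, rfl⟩
  rw [← hy] at h5 hcon
  have hy1 : 1 ≤ y := by rw [hy]; exact Real.one_le_rpow hN hε0.le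
  have h6 : (S.card : ℝ) ≤ y * hits A S := (le_max_left _ _).trans hcon.le
  have h7 : ((A ∩ Set.Iio N).ncard : ℝ) ≤ y * hits A S := (le_max_right _ _).trans hcon.le
  have h8 := hit_bound hr hy1 h5 h6
  rw [← hc, ← he] at h8
  have h9 : ((A ∩ Set.Icc 1 N).ncard : ℝ) ≤ (A ∩ Set.Iio N).ncard + 1 := by
    exact_mod_cast Icc_le A N
  have h10 : ((A ∩ Set.Iio N).ncard : ℝ) ≤ c * y ^ (e + 1) := by
    calc ((A ∩ Set.Iio N).ncard : ℝ) ≤ y * hits A S := h7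
      _ ≤ y * (c * y ^ e) := by gcongr
      _ = c * y ^ (e + 1) := by ring
  have h11 : 1 ≤ c * y ^ (e + 1) := one_le_mul_of_one_le_of_one_le hc1 (one_le_pow₀ hy1)
  have h12 : y ^ (e + 1) = (N : ℝ) ^ (δ / 2) := by
    rw [hy, ← Real.rpow_natCast, ← Real.rpow_mul hN0.le]
    congr 1
    rw [hε]
    push_cast
    field_simp
  have h13 : (N : ℝ) ^ δ ≤ Real.sqrt N / g N := by
    rw [hδ, Real.rpow_sub hN0, ← Real.sqrt_eq_rpow]
    exact div_le_div_of_nonneg_left (by positivity) h2.1 h2.2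
  have h14 : (N : ℝ) ^ δ = (N : ℝ) ^ (δ / 2) * (N : ℝ) ^ (δ / 2) := by
    rw [← Real.rpow_add hN0]
    congr 1
    ring
  have h15 : (N : ℝ) ^ (δ / 2) * (N : ℝ) ^ (δ / 2) ≤ C * (2 * c) * (N : ℝ) ^ (δ / 2) := by
    rw [← h14]
    calc (N : ℝ) ^ δ ≤ C * ((A ∩ Set.Icc 1 N).ncard : ℝ) := h13.trans h1
      _ ≤ C * (2 * (c * y ^ (e + 1))) := by
        gcongr
        linarith
      _ = C * (2 * c) * (N : ℝ) ^ (δ / 2) := by rw [h12]; ring
  have h16 : 0 < (N : ℝ) ^ (δ / 2) := by positivity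
  have h17 := le_of_mul_le_mul_right h15 h16
  linarith

/-- the exponent in `exact_ineq` is optimal -/
theorem exact_sharp {t : ℕ} (ht : 1 ≤ t) : ∃ A : Set ℕ, (∀ n, rep A n < 2 ^ (t + 1)) ∧
    ∃ c : ℝ, 0 < c ∧ ∀ M : ℕ, ∃ S : Finset ℕ, (S : Set ℕ) ⊆ A ∧ M ≤ S.card ∧
      c * (cost S : ℝ) ^ t ≤ S.card := by
  obtain ⟨c, hc, hlow⟩ := linear_lower t ht
  obtain ⟨C, hup⟩ := log_dset t ht
  refine ⟨dset (fun _ => 4) (fun _ => {0, 1}) t, ?_, ?_⟩
  · intro n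
    refine lt_of_le_of_lt (rep_dset good_four ht n) ?_
    rw [pow_succ]
    have : 0 < 2 ^ t := by positivity
    omega
  · refine ⟨c / (2 * (|C| + 1) ^ t), by positivity, ?_⟩
    intro M
    have htend : Tendsto (fun N : ℕ => Real.log N) atTop atTop :=
      Real.tendsto_log_atTop.comp tendsto_natCast_atTop_atTop
    obtain ⟨N, h1, h2, h3, h4⟩ := (hlow.and (hup.and
      ((htend.eventually_ge_atTop (max 1 ((M + 2) / c))).and (eventually_ge_atTop 1)))).exists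
    obtain ⟨n, hn, hg⟩ := gram_spec (dset (fun _ => 4) (fun _ => {0, 1}) t) N
    obtain ⟨A, hA⟩ : ∃ A, A = dset (fun _ => 4) (fun _ => {0, 1}) t := ⟨_, rfl⟩
    rw [← hA] at h1 h2 hg ⊢
    have hl1 : 1 ≤ Real.log N := (le_max_left _ _).trans h3
    have hl2 : (M + 2) / c ≤ Real.log N := (le_max_right _ _).trans h3
    have h5 : ((ones (pre A n)).card : ℝ) = (A ∩ Set.Iio n).ncard := by
      rw [← count_eq, count_pre]
    have h6 : ((A ∩ Set.Icc 1 N).ncard : ℝ) ≤ (A ∩ Set.Iio N).ncard + 1 := by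
      exact_mod_cast Icc_le A N
    have h7 : (A ∩ Set.Iio N).ncard ≤ (A ∩ Set.Iio n).ncard := by
      refine Set.ncard_le_ncard ?_ ((Set.finite_Iio n).subset Set.inter_subset_right)
      rintro x ⟨h1, h2⟩
      exact ⟨h1, lt_of_lt_of_le h2 hn⟩
    have h8 : ((A ∩ Set.Iio N).ncard : ℝ) ≤ (A ∩ Set.Iio n).ncard := by exact_mod_cast h7
    have h9 : (M : ℝ) + 2 ≤ c * Real.log N ^ t := by
      rw [div_le_iff₀ hc] at hl2
      calc (M : ℝ) + 2 ≤ c * Real.log N := by linarith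
        _ ≤ c * Real.log N ^ t := by
          gcongr
          exact le_self_pow₀ hl1 (by omega)
    refine ⟨ones (pre A n), ?_, ?_, ?_⟩
    · intro a ha
      exact (mem_ones_pre.1 (mem_coe.1 ha)).2
    · have : (M : ℝ) ≤ ((ones (pre A n)).card : ℝ) := by
        rw [h5]
        linarith
      exact_mod_cast this
    · have h10 : (cost (ones (pre A n)) : ℝ) ≤ (|C| + 1) * Real.log N := by
        have h11 : (cost (ones (pre A n)) : ℝ) ≤ gram A N := by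
          exact_mod_cast (built_ones hg).le
        refine h11.trans (h2.trans ?_)
        gcongr
        linarith [le_abs_self C]
      have h11 : (cost (ones (pre A n)) : ℝ) ^ t ≤ (|C| + 1) ^ t * Real.log N ^ t := by
        rw [← mul_pow]
        gcongr
      have hMpos : (0 : ℝ) ≤ M := by positivity
      calc c / (2 * (|C| + 1) ^ t) * (cost (ones (pre A n)) : ℝ) ^ t
          ≤ c / (2 * (|C| + 1) ^ t) * ((|C| + 1) ^ t * Real.log N ^ t) := by gcongr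
        _ = c * Real.log N ^ t / 2 := by
          field_simp
        _ ≤ ((ones (pre A n)).card : ℝ) := by
          rw [h5]
          linarith

end Pool.Agent.Helper42.GP
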